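import Pool.Agent.H90.SH.Stm
import Pool.Agent.Results.MP_0bf1d2_nt.EveryNLargeModuli
import Pool.Agent.H90.SK.Ex

/-! # The systems in residue classes -/

set_option autoImplicit false

namespace Pool.Agent.H90.SH

open Finset Polynomial
open Pool.Agent.H373R2.T7.SHN (AllPrime Q1 X1 omega sing NoFixedDivisor omega_lt)
open Pool.Agent.Results.MP_0bf1d2_nt.EveryNLargeModuli (count system)

variable {g : ℕ}

/-- the polynomial `f(q X + b)` -/
noncomputable def cl (f : ℤ[X]) (q b : ℕ) : ℤ[X] := f.comp (C (q : ℤ) * X + C (b : ℤ))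

theorem cl_evalZ (f : ℤ[X]) (q b : ℕ) (n : ℤ) : (cl f q b).eval n = f.eval ((q : ℤ) * n + b) := by
  unfold cl
  rw [eval_comp]
  simp

theorem cl_eval (f : ℤ[X]) (q b n : ℕ) : (cl f q b).eval (n : ℤ) = f.eval ((q * n + b : ℕ) : ℤ) := by
  rw [cl_evalZ]
  push_cast
  rfl

theorem lin_deg {q : ℕ} (b : ℕ) (hq : 1 ≤ q) : (C (q : ℤ) * X + C (b : ℤ)).natDegree = 1 :=
  natDegree_linear (by exact_mod_cast (by omega : q ≠ 0))

theorem cl_deg (f : ℤ[X]) {q : ℕ} (b : ℕ) (hq : 1 ≤ q) : (cl f q b).natDegree = f.natDegree := by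
  unfold cl
  rw [natDegree_comp, lin_deg b hq, mul_one]

theorem cl_lc {f : ℤ[X]} {q : ℕ} (b : ℕ) (hq : 1 ≤ q) (hf : 0 < f.leadingCoeff) : 0 < (cl f q b).leadingCoeff := by
  unfold cl
  have h1 : (C (q : ℤ) * X + C (b : ℤ)).leadingCoeff = (q : ℤ) :=
    leadingCoeff_linear (by exact_mod_cast (by omega : q ≠ 0))
  rw [leadingCoeff_comp (by rw [lin_deg b hq]; norm_num), h1]
  have : (0 : ℤ) < q := by exact_mod_cast hq
  positivity

theorem allPrime_cl (F : Fin g → ℤ[X]) (a : Fin g → ℕ) (G : ℤ[X]) (N q b n : ℕ) :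
    AllPrime (fun i => cl (F i) q b) a (cl G q b) N n ↔ AllPrime F a G N (q * n + b) := by
  unfold AllPrime
  simp only [cl_eval]

/-- the product of the values -/
def PV (F : Fin g → ℤ[X]) (a : Fin g → ℕ) (G : ℤ[X]) (N : ℕ) (n : ℤ) : ℤ :=
  (∏ i, ((F i).eval n + a i)) * (N - G.eval n)

theorem PV_cl (F : Fin g → ℤ[X]) (a : Fin g → ℕ) (G : ℤ[X]) (N q b : ℕ) (n : ℤ) :
    PV (fun i => cl (F i) q b) a (cl G q b) N n = PV F a G N ((q : ℤ) * n + b) := by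
  unfold PV
  simp only [cl_evalZ]

theorem PV_congr (F : Fin g → ℤ[X]) (a : Fin g → ℕ) (G : ℤ[X]) (N : ℕ) {p : ℤ} {m n : ℤ} (h : p ∣ m - n) :
    p ∣ PV F a G N m ↔ p ∣ PV F a G N n := by
  set P : ℤ[X] := (∏ i, (F i + C (a i : ℤ))) * (C (N : ℤ) - G) with hP
  have hev : ∀ m : ℤ, P.eval m = PV F a G N m := by
    intro m
    unfold PV
    rw [hP, eval_mul, eval_prod]
    simp
  rw [← hev, ← hev]
  exact dvd_iff_dvd_of_dvd_sub (h.trans (sub_dvd_eval_sub m n P))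

theorem omega_PV (F : Fin g → ℤ[X]) (a : Fin g → ℕ) (G : ℤ[X]) (N p : ℕ) :
    omega F a G N p = ((range p).filter (fun r : ℕ => (p : ℤ) ∣ PV F a G N (r : ℤ))).card := rfl

theorem omega_cop (F : Fin g → ℤ[X]) (a : Fin g → ℕ) (G : ℤ[X]) (N q b : ℕ) {p : ℕ} (hp : p.Prime) (hq : ¬ p ∣ q) :
    omega (fun i => cl (F i) q b) a (cl G q b) N p = omega F a G N p := by
  classical
  rw [omega_PV, omega_PV]
  apply card_bij (fun r _ => (q * r + b) % p)
  · intro r hr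
    rw [mem_filter, mem_range] at hr ⊢
    refine ⟨Nat.mod_lt _ hp.pos, ?_⟩
    rw [PV_cl] at hr
    refine (PV_congr F a G N ?_).1 hr.2
    have e : (q : ℤ) * (r : ℤ) + b - (((q * r + b) % p : ℕ) : ℤ) = ((q * r + b : ℕ) : ℤ) - (((q * r + b) % p : ℕ) : ℤ) := by
      push_cast
      rfl
    rw [e]
    exact (Nat.modEq_iff_dvd).1 (Nat.mod_modEq _ _)
  · intro r hr s hs h
    rw [mem_filter, mem_range] at hr hs
    have h1 : q * r + b ≡ q * s + b [MOD p] := h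
    have h2 := Nat.ModEq.add_right_cancel' b h1
    have hc : Nat.gcd p q = 1 := (Nat.Prime.coprime_iff_not_dvd hp).2 hq
    have h3 := Nat.ModEq.cancel_left_of_coprime hc h2
    exact h3.eq_of_lt_of_lt hr.1 hs.1
  · intro s hs
    rw [mem_filter, mem_range] at hs
    obtain ⟨u, hu⟩ := Nat.exists_mul_mod_eq_one_of_coprime ((Nat.Prime.coprime_iff_not_dvd hp).2 hq).symm hp.one_lt
    -- `q u ≡ 1`
    set r : ℕ := (u * (s + (p - 1) * b)) % p with hr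
    have h1 : q * r + b ≡ s [MOD p] := by
      have e1 : q * r ≡ q * (u * (s + (p - 1) * b)) [MOD p] := (Nat.mod_modEq _ _).mul_left q
      have e2 : q * (u * (s + (p - 1) * b)) = (q * u) * (s + (p - 1) * b) := by ring
      have e3 : (q * u) * (s + (p - 1) * b) ≡ 1 * (s + (p - 1) * b) [MOD p] := by
        apply Nat.ModEq.mul_right
        unfold Nat.ModEq
        rw [hu.2, Nat.mod_eq_of_lt hp.one_lt]
      have e4 : s + (p - 1) * b + b = s + p * b := by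
        obtain ⟨k, rfl⟩ : ∃ k, p = k + 1 := ⟨p - 1, by have := hp.one_lt; omega⟩
        simp
        ring
      have e5 : s + p * b ≡ s [MOD p] := by
        unfold Nat.ModEq
        exact Nat.add_mul_mod_self_left s p b
      have e6 : q * r + b ≡ 1 * (s + (p - 1) * b) + b [MOD p] := ((e2 ▸ e1).trans e3).add_right b
      rw [one_mul, e4] at e6
      exact e6.trans e5
    refine ⟨r, ?_, ?_⟩
    · rw [mem_filter, mem_range, PV_cl]
      refine ⟨Nat.mod_lt _ hp.pos, (PV_congr F a G N ?_).1 hs.2⟩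
      have := (Nat.modEq_iff_dvd).1 h1
      push_cast at this
      exact this
    · show (q * r + b) % p = s
      rw [h1]
      exact Nat.mod_eq_of_lt hs.1

theorem omega_dvd (F : Fin g → ℤ[X]) (a : Fin g → ℕ) (G : ℤ[X]) (N q b : ℕ) {p : ℕ} (hpq : p ∣ q)
    (hop : ¬ (p : ℤ) ∣ PV F a G N (b : ℤ)) : omega (fun i => cl (F i) q b) a (cl G q b) N p = 0 := by
  rw [omega_PV, card_eq_zero, filter_eq_empty_iff]
  intro r _ h
  rw [PV_cl] at h
  apply hop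
  refine (PV_congr F a G N ?_).1 h
  have e : (q : ℤ) * (r : ℤ) + b - b = q * r := by ring
  rw [e]
  exact Dvd.dvd.mul_right (by exact_mod_cast hpq) _

/-- the class is open -/
def Op (F : Fin g → ℤ[X]) (a : Fin g → ℕ) (G : ℤ[X]) (N q b : ℕ) : Prop :=
  ∀ p ∈ q.primeFactors, ¬ (p : ℤ) ∣ PV F a G N (b : ℤ)

theorem sing_cl (F : Fin g → ℤ[X]) (a : Fin g → ℕ) (G : ℤ[X]) (N : ℕ) {q b z : ℕ} (hq : 1 ≤ q) (hz : q ≤ z)
    (hop : Op F a G N q b) :
    sing (fun i => cl (F i) q b) a (cl G q b) N z * ∏ p ∈ q.primeFactors, (1 - (omega F a G N p : ℝ) / p) =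
      sing F a G N z := by
  classical
  unfold sing
  have h1 : q.primeFactors = ((Icc 1 z).filter Nat.Prime).filter (fun p => p ∣ q) := by
    ext p
    rw [mem_filter, mem_filter, mem_Icc, Nat.mem_primeFactors]
    constructor
    · rintro ⟨hp, hd, _⟩
      exact ⟨⟨⟨hp.pos, (Nat.le_of_dvd (by omega) hd).trans hz⟩, hp⟩, hd⟩
    · rintro ⟨⟨_, hp⟩, hd⟩
      exact ⟨hp, hd, by omega⟩
  rw [h1, prod_filter (fun p => p ∣ q) (fun p => (1 - (omega F a G N p : ℝ) / p)), ← prod_mul_distrib]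
  apply prod_congr rfl
  intro p hp
  have hpp := (mem_filter.1 hp).2
  by_cases hd : p ∣ q
  · rw [if_pos hd, omega_dvd F a G N q b hd (hop p (Nat.mem_primeFactors.2 ⟨hpp, hd, by omega⟩))]
    simp
    ring
  · rw [if_neg hd, omega_cop F a G N q b hpp hd, mul_one]

theorem nofix_cl {F : Fin g → ℤ[X]} {a : Fin g → ℕ} {G : ℤ[X]} {N q b : ℕ} (h : NoFixedDivisor F a G N)
    (hq : 1 ≤ q) (hop : Op F a G N q b) : NoFixedDivisor (fun i => cl (F i) q b) a (cl G q b) N := by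
  intro p hp
  have key : ∃ n : ℤ, ¬ (p : ℤ) ∣ PV (fun i => cl (F i) q b) a (cl G q b) N n := by
    by_cases hd : p ∣ q
    · refine ⟨0, ?_⟩
      rw [PV_cl, mul_zero, zero_add]
      exact hop p (Nat.mem_primeFactors.2 ⟨hp, hd, by omega⟩)
    · obtain ⟨n, hn⟩ := h p hp
      have hc : IsCoprime (q : ℤ) (p : ℤ) := by
        rw [Nat.isCoprime_iff_coprime]
        exact ((Nat.Prime.coprime_iff_not_dvd hp).2 hd).symm
      obtain ⟨u, v, huv⟩ := hc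
      refine ⟨u * (n - b), ?_⟩
      rw [PV_cl]
      intro h1
      apply hn
      refine (PV_congr F a G N ?_).1 h1
      refine ⟨-(v * (n - b)), ?_⟩
      linear_combination (n - b) * huv
  exact key

theorem X1_cl {G : ℤ[X]} {N : ℕ} (hseg : ∀ n : ℕ, (1 ≤ n ∧ 0 < (N : ℤ) - G.eval (n : ℤ)) ↔ (1 ≤ n ∧ n ≤ X1 G N))
    {q b : ℕ} (hq : 1 ≤ q) : X1 (cl G q b) N = (X1 G N - b) / q := by
  have h1 : {n : ℕ | 1 ≤ n ∧ 0 < (N : ℤ) - (cl G q b).eval (n : ℤ)} = (Icc 1 ((X1 G N - b) / q) : Finset ℕ) := by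
    ext n
    rw [coe_Icc, Set.mem_Icc, Set.mem_ofPred_eq, cl_eval]
    constructor
    · rintro ⟨h1, h2⟩
      refine ⟨h1, ?_⟩
      have h3 : 1 ≤ q * n + b := by nlinarith
      have h4 := ((hseg (q * n + b)).1 ⟨h3, h2⟩).2
      rw [Nat.le_div_iff_mul_le (by omega)]
      have : n * q = q * n := mul_comm _ _
      omega
    · rintro ⟨h1, h2⟩
      refine ⟨h1, ?_⟩
      rw [Nat.le_div_iff_mul_le (by omega)] at h2
      have h5 : 1 * q ≤ n * q := Nat.mul_le_mul_right q h1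
      have h6 : n * q = q * n := mul_comm _ _
      have h3 : q * n + b ≤ X1 G N := by omega
      exact ((hseg (q * n + b)).2 ⟨by omega, h3⟩).2
  have h2 : X1 (cl G q b) N = ({n : ℕ | 1 ≤ n ∧ 0 < (N : ℤ) - (cl G q b).eval (n : ℤ)}).ncard := rfl
  rw [h2, h1, Set.ncard_coe_finset, Nat.card_Icc, Nat.add_sub_cancel]

/-- the solutions -/
def Sol (F : Fin g → ℤ[X]) (a : Fin g → ℕ) (G : ℤ[X]) (N : ℕ) : Set ℕ := {n | 1 ≤ n ∧ AllPrime F a G N n}

theorem Sol_le {F : Fin g → ℤ[X]} {a : Fin g → ℕ} {G : ℤ[X]} {N : ℕ}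
    (hseg : ∀ n : ℕ, (1 ≤ n ∧ 0 < (N : ℤ) - G.eval (n : ℤ)) ↔ (1 ≤ n ∧ n ≤ X1 G N)) {n : ℕ} (hn : n ∈ Sol F a G N) :
    n ≤ X1 G N := by
  obtain ⟨h1, h2⟩ := hn
  refine ((hseg n).1 ⟨h1, ?_⟩).2
  have := h2.2.pos
  omega

theorem count_Q1 {F : Fin g → ℤ[X]} {a : Fin g → ℕ} {G : ℤ[X]} {N : ℕ}
    (hseg : ∀ n : ℕ, (1 ≤ n ∧ 0 < (N : ℤ) - G.eval (n : ℤ)) ↔ (1 ≤ n ∧ n ≤ X1 G N)) {q b : ℕ} (hb : b < q) :
    |count (Sol F a G N) (X1 G N) q b - (Q1 (fun i => cl (F i) q b) a (cl G q b) N : ℝ)| ≤ 1 := by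
  classical
  have hfin : {n : ℕ | n ∈ Sol F a G N ∧ 1 ≤ n ∧ n ≤ X1 G N ∧ n ≡ b [MOD q]}.Finite :=
    (Set.finite_Iic (X1 G N)).subset (fun n hn => hn.2.2.1)
  have hinj : Set.InjOn (fun n => q * n + b) {n : ℕ | 1 ≤ n ∧ AllPrime (fun i => cl (F i) q b) a (cl G q b) N n} := by
    intro m _ n _ h
    simp only at h
    have : q * m = q * n := by omega
    exact Nat.eq_of_mul_eq_mul_left (by omega) this
  have himg : (fun n => q * n + b) '' {n : ℕ | 1 ≤ n ∧ AllPrime (fun i => cl (F i) q b) a (cl G q b) N n} ⊆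
      {n : ℕ | n ∈ Sol F a G N ∧ 1 ≤ n ∧ n ≤ X1 G N ∧ n ≡ b [MOD q]} := by
    rintro _ ⟨n, ⟨h1, h2⟩, rfl⟩
    rw [allPrime_cl] at h2
    have h3 : 1 ≤ q * n + b := by nlinarith
    have h4 : q * n + b ∈ Sol F a G N := ⟨h3, h2⟩
    refine ⟨h4, h3, Sol_le hseg h4, ?_⟩
    unfold Nat.ModEq
    exact Nat.mul_add_mod q n b
  have hQ : Q1 (fun i => cl (F i) q b) a (cl G q b) N =
      ((fun n => q * n + b) '' {n : ℕ | 1 ≤ n ∧ AllPrime (fun i => cl (F i) q b) a (cl G q b) N n}).ncard := by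
    rw [hinj.ncard_image]
    rfl
  have h1 : Q1 (fun i => cl (F i) q b) a (cl G q b) N ≤
      ({n : ℕ | n ∈ Sol F a G N ∧ 1 ≤ n ∧ n ≤ X1 G N ∧ n ≡ b [MOD q]}).ncard := by
    rw [hQ]
    exact Set.ncard_le_ncard himg hfin
  have h2 : ({n : ℕ | n ∈ Sol F a G N ∧ 1 ≤ n ∧ n ≤ X1 G N ∧ n ≡ b [MOD q]}).ncard ≤
      Q1 (fun i => cl (F i) q b) a (cl G q b) N + 1 := by
    rw [hQ]
    have hsub : {n : ℕ | n ∈ Sol F a G N ∧ 1 ≤ n ∧ n ≤ X1 G N ∧ n ≡ b [MOD q]} ⊆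
        insert b ((fun n => q * n + b) '' {n : ℕ | 1 ≤ n ∧ AllPrime (fun i => cl (F i) q b) a (cl G q b) N n}) := by
      rintro n ⟨h3, h4, h5, h6⟩
      have h7 : n % q = b := by
        rw [h6]
        exact Nat.mod_eq_of_lt hb
      have h8 := Nat.div_add_mod n q
      rw [h7] at h8
      rcases Nat.eq_zero_or_pos (n / q) with h9 | h9
      · left
        rw [h9] at h8
        omega
      · right
        refine ⟨n / q, ⟨h9, ?_⟩, h8⟩
        rw [allPrime_cl, h8]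
        exact h3.2
    refine (Set.ncard_le_ncard hsub ((hfin.subset himg).insert b)).trans ?_
    exact Set.ncard_insert_le _ _
  unfold count
  rw [abs_le]
  constructor
  · have : ((Q1 (fun i => cl (F i) q b) a (cl G q b) N : ℕ) : ℝ) ≤
        (({n : ℕ | n ∈ Sol F a G N ∧ 1 ≤ n ∧ n ≤ X1 G N ∧ n ≡ b [MOD q]}).ncard : ℝ) := by exact_mod_cast h1
    linarith
  · have : (({n : ℕ | n ∈ Sol F a G N ∧ 1 ≤ n ∧ n ≤ X1 G N ∧ n ≡ b [MOD q]}).ncard : ℝ) ≤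
        ((Q1 (fun i => cl (F i) q b) a (cl G q b) N : ℕ) : ℝ) + 1 := by exact_mod_cast h2
    linarith

end Pool.Agent.H90.SH
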