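import Pool.Agent.H90.SH.Cls

/-! # The fixed classes -/

set_option autoImplicit false

namespace Pool.Agent.H90.SH

open Finset Polynomial Filter Topology Pool.Agent.H90.SK
open Pool.Agent.H373R2.T7.SHN (AllPrime Q1 X1 omega sing NoFixedDivisor omega_lt)
open Pool.Agent.Results.MP_0bf1d2_nt.EveryNLargeModuli (count system NoFixedPrime primeArguments sys_deg)

variable {g : ℕ}

/-- the system -/
noncomputable def sy (F : Fin g → ℤ[X]) (a : Fin g → ℕ) (G : ℤ[X]) (N : ℕ) : Fin (g + 1) → ℤ[X] :=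
  system (fun i => F i + C (a i : ℤ)) G N

theorem sy_exists (F : Fin g → ℤ[X]) (a : Fin g → ℕ) (G : ℤ[X]) (N : ℕ) {p : ℕ} (hp : p.Prime) (n : ℤ) :
    (∃ i, (p : ℤ) ∣ (sy F a G N i).eval n) ↔ (p : ℤ) ∣ PV F a G N n := by
  have hpp : Prime (p : ℤ) := Nat.prime_iff_prime_int.1 hp
  unfold PV sy system
  constructor
  · rintro ⟨i, hi⟩
    revert hi
    refine Fin.lastCases ?_ (fun j => ?_) i
    · intro hi
      rw [Fin.snoc_last, eval_sub, eval_C] at hi
      exact Dvd.dvd.mul_left hi _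
    · intro hi
      rw [Fin.snoc_castSucc, eval_add, eval_C] at hi
      exact Dvd.dvd.mul_right (hi.trans (dvd_prod_of_mem (fun i => (F i).eval n + (a i : ℤ)) (mem_univ j))) _
  · intro h
    rcases hpp.dvd_or_dvd h with h | h
    · obtain ⟨j, _, hj⟩ := (Prime.dvd_finsetProd_iff hpp _).1 h
      refine ⟨Fin.castSucc j, ?_⟩
      rw [Fin.snoc_castSucc, eval_add, eval_C]
      exact hj
    · refine ⟨Fin.last g, ?_⟩
      rw [Fin.snoc_last, eval_sub, eval_C]
      exact h

theorem omP_sy (F : Fin g → ℤ[X]) (a : Fin g → ℕ) (G : ℤ[X]) (N : ℕ) {p : ℕ} (hp : p.Prime) :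
    (omP (sy F a G N) p).card = omega F a G N p := by
  classical
  rw [omega_PV]
  unfold omP
  congr 1
  apply filter_congr
  intro n _
  exact sy_exists F a G N hp n

theorem AD_sy (F : Fin g → ℤ[X]) (a : Fin g → ℕ) (G : ℤ[X]) (N : ℕ) {q : ℕ} (b : ℕ) :
    AD (omP (sy F a G N)) q b ↔ Op F a G N q b := by
  unfold AD Op
  apply forall_congr'
  intro p
  apply imp_congr_right
  intro hp
  have hpp := Nat.prime_of_mem_primeFactors hp
  rw [mem_omP _ hpp.pos, sy_exists F a G N hpp]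

theorem nofix_sy {F : Fin g → ℤ[X]} {a : Fin g → ℕ} {G : ℤ[X]} {N : ℕ} (h : NoFixedDivisor F a G N) :
    NoFixedPrime (sy F a G N) := by
  classical
  intro p hp
  have h1 := omega_lt F a G N h p hp
  rw [omega_PV] at h1
  obtain ⟨r, hr1, hr2⟩ := exists_mem_notMem_of_card_lt_card
    (s := (range p).filter (fun r : ℕ => (p : ℤ) ∣ PV F a G N (r : ℤ))) (t := range p) (by rw [card_range]; exact h1)
  refine ⟨r, fun i hi => hr2 (mem_filter.2 ⟨hr1, ?_⟩)⟩
  rw [← sy_exists F a G N hp]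
  exact ⟨i, hi⟩

theorem deg_sy {F : Fin g → ℤ[X]} (hF : ∀ i, 1 ≤ (F i).natDegree) (a : Fin g → ℕ) {G : ℤ[X]} (hG : 1 ≤ G.natDegree)
    (N : ℕ) : (∀ i, 1 ≤ (sy F a G N i).natDegree) ∧
      ∑ i, (sy F a G N i).natDegree = (∑ i, (F i).natDegree) + G.natDegree := by
  have h := sys_deg (F := fun i => F i + C (a i : ℤ)) (G := G) (fun i => by rw [natDegree_add_C]; exact hF i) hG N
  simp only [natDegree_add_C] at h
  exact h

theorem adm_sy {F : Fin g → ℤ[X]} (hF : ∀ i, 1 ≤ (F i).natDegree) {a : Fin g → ℕ} {G : ℤ[X]} (hG : 1 ≤ G.natDegree)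
    {N : ℕ} (h : NoFixedDivisor F a G N) :
    Adm ((∑ i, (F i).natDegree) + G.natDegree) (omP (sy F a G N)) :=
  adm_omP _ (nofix_sy h) (deg_sy hF a hG N).2.le

theorem Sol_sub (F : Fin g → ℤ[X]) (a : Fin g → ℕ) (G : ℤ[X]) (N : ℕ) : Sol F a G N ⊆ primeArguments (sy F a G N) := by
  rintro n ⟨_, h1, h2⟩
  intro i
  unfold sy system
  have key : ∀ v : ℤ, v.toNat.Prime → v.natAbs.Prime := by
    intro v hv
    have h3 : 0 < v.toNat := hv.pos
    have h4 : v.natAbs = v.toNat := by omega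
    rw [h4]
    exact hv
  refine Fin.lastCases ?_ (fun j => ?_) i
  · rw [Fin.snoc_last, eval_sub, eval_C]
    exact key _ h2
  · rw [Fin.snoc_castSucc, eval_add, eval_C]
    exact key _ (h1 j)

/-- the closed classes -/
theorem closed_count {F : Fin g → ℤ[X]} (hF : ∀ i, 1 ≤ (F i).natDegree) {a : Fin g → ℕ} {G : ℤ[X]}
    (hG : 1 ≤ G.natDegree) {N x q b : ℕ} (hcl : ¬ Op F a G N q b) :
    count (Sol F a G N) x q b ≤ (((∑ i, (F i).natDegree) + G.natDegree : ℕ) : ℝ) := by
  classical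
  unfold Op at hcl
  push Not at hcl
  obtain ⟨p, hp, hd⟩ := hcl
  have hpp := Nat.prime_of_mem_primeFactors hp
  have hpq := Nat.dvd_of_mem_primeFactors hp
  unfold count
  apply Nat.cast_le.2
  set Z : Finset ℤ := univ.biUnion (fun i => (sy F a G N i - C (p : ℤ)).roots.toFinset) with hZ
  have hdeg := deg_sy hF a hG N
  have hcardZ : Z.card ≤ (∑ i, (F i).natDegree) + G.natDegree := by
    rw [← hdeg.2, hZ]
    refine card_biUnion_le.trans (sum_le_sum fun i _ => ?_)
    refine (Multiset.toFinset_card_le _).trans ((card_roots' _).trans ?_)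
    rw [natDegree_sub_C]
  have hsub : (fun n : ℕ => (n : ℤ)) '' {n : ℕ | n ∈ Sol F a G N ∧ 1 ≤ n ∧ n ≤ x ∧ n ≡ b [MOD q]} ⊆ (Z : Set ℤ) := by
    rintro _ ⟨n, ⟨h1, _, _, h4⟩, rfl⟩
    have h5 : (p : ℤ) ∣ PV F a G N (n : ℤ) := by
      refine (PV_congr F a G N ?_).1 hd
      have := (Nat.modEq_iff_dvd).1 (h4.of_dvd hpq)
      exact this
    rw [← sy_exists F a G N hpp] at h5
    obtain ⟨i, hi⟩ := h5
    have h6 : ((sy F a G N i).eval (n : ℤ)).toNat.Prime := by
      unfold sy system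
      refine Fin.lastCases ?_ (fun j => ?_) i
      · rw [Fin.snoc_last, eval_sub, eval_C]
        exact h1.2.2
      · rw [Fin.snoc_castSucc, eval_add, eval_C]
        exact h1.2.1 j
    have h7 : (sy F a G N i).eval (n : ℤ) = p := by
      have h8 : 0 < ((sy F a G N i).eval (n : ℤ)).toNat := h6.pos
      have h9 : (((sy F a G N i).eval (n : ℤ)).toNat : ℤ) = (sy F a G N i).eval (n : ℤ) := by omega
      rw [← h9] at hi ⊢
      have h10 : p ∣ ((sy F a G N i).eval (n : ℤ)).toNat := by exact_mod_cast hi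
      rw [(Nat.prime_dvd_prime_iff_eq hpp h6).1 h10]
    rw [mem_coe, hZ, mem_biUnion]
    refine ⟨i, mem_univ _, ?_⟩
    rw [Multiset.mem_toFinset, mem_roots']
    refine ⟨?_, ?_⟩
    · intro h0
      have h8 : (sy F a G N i - C (p : ℤ)).natDegree = 0 := by rw [h0, natDegree_zero]
      rw [natDegree_sub_C] at h8
      have := hdeg.1 i
      omega
    · rw [IsRoot, eval_sub, eval_C, h7, sub_self]
  calc ({n : ℕ | n ∈ Sol F a G N ∧ 1 ≤ n ∧ n ≤ x ∧ n ≡ b [MOD q]}).ncard =
        ((fun n : ℕ => (n : ℤ)) '' {n : ℕ | n ∈ Sol F a G N ∧ 1 ≤ n ∧ n ≤ x ∧ n ≡ b [MOD q]}).ncard :=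
        (Set.ncard_image_of_injective _ Nat.cast_injective).symm
    _ ≤ (Z : Set ℤ).ncard := Set.ncard_le_ncard hsub (Finset.finite_toSet _)
    _ = Z.card := Set.ncard_coe_finset _
    _ ≤ _ := hcardZ

/-- the ratio of the main terms -/
theorem lim_ratio {q : ℕ} (hq : 1 ≤ q) (b j : ℕ) :
    Tendsto (fun X : ℕ => ((((X - b) / q : ℕ) : ℝ) / Real.log (((X - b) / q : ℕ) : ℝ) ^ j) *
      (Real.log X ^ j * q / X)) atTop (𝓝 1) := by
  have hq0 : (0 : ℝ) < q := by exact_mod_cast hq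
  -- the quotient
  have h1 : Tendsto (fun X : ℕ => (((X - b) / q : ℕ) : ℝ) * q / X) atTop (𝓝 1) := by
    have hlow : Tendsto (fun X : ℕ => 1 - ((b : ℝ) + q) / X) atTop (𝓝 1) := by
      have := (tendsto_const_nhds (x := ((b : ℝ) + q))).div_atTop (tendsto_natCast_atTop_atTop (R := ℝ))
      simpa using tendsto_const_nhds.sub this
    refine tendsto_of_tendsto_of_tendsto_of_le_of_le' hlow tendsto_const_nhds ?_ ?_
    · filter_upwards [eventually_ge_atTop (b + q + 1)] with X hX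
      have hX0 : (0 : ℝ) < X := by exact_mod_cast (by omega : 0 < X)
      rw [le_div_iff₀ hX0, sub_mul, one_mul, div_mul_cancel₀ _ hX0.ne']
      have h2 : X ≤ (X - b) / q * q + b + q := by
        have h3 := Nat.lt_div_mul_add (a := X - b) (b := q) (by omega)
        omega
      have h3 : (X : ℝ) ≤ (((X - b) / q : ℕ) : ℝ) * q + b + q := by exact_mod_cast h2
      linarith
    · filter_upwards [eventually_ge_atTop 1] with X hX
      have hX0 : (0 : ℝ) < X := by exact_mod_cast (by omega : 0 < X)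
      rw [div_le_one hX0]
      have h2 : (X - b) / q * q ≤ X := (Nat.div_mul_le_self _ _).trans (Nat.sub_le _ _)
      exact_mod_cast h2
  -- the logarithms
  have h2 : Tendsto (fun X : ℕ => Real.log (((X - b) / q : ℕ) : ℝ) / Real.log X) atTop (𝓝 1) := by
    have hL : Tendsto (fun X : ℕ => Real.log (X : ℝ)) atTop atTop :=
      Real.tendsto_log_atTop.comp tendsto_natCast_atTop_atTop
    have h3 : Tendsto (fun X : ℕ => Real.log ((((X - b) / q : ℕ) : ℝ) * q / X)) atTop (𝓝 0) := by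
      have := (Real.continuousAt_log one_ne_zero).tendsto.comp h1
      rw [Real.log_one] at this
      exact this
    have h4 : Tendsto (fun X : ℕ => 1 + (Real.log ((((X - b) / q : ℕ) : ℝ) * q / X) - Real.log q) / Real.log X)
        atTop (𝓝 (1 + 0)) :=
      tendsto_const_nhds.add ((h3.sub_const (Real.log q)).div_atTop hL)
    rw [add_zero] at h4
    refine h4.congr' ?_
    filter_upwards [eventually_ge_atTop (b + q + 2)] with X hX
    have hX0 : (0 : ℝ) < X := by exact_mod_cast (by omega : 0 < X)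
    have hX1 : (1 : ℝ) < X := by exact_mod_cast (by omega : 1 < X)
    have hl : 0 < Real.log X := Real.log_pos hX1
    have hd : 0 < (X - b) / q := Nat.div_pos (by omega) (by omega)
    have hd0 : (0 : ℝ) < (((X - b) / q : ℕ) : ℝ) := by exact_mod_cast hd
    rw [Real.log_div (by positivity) hX0.ne', Real.log_mul hd0.ne' hq0.ne']
    field_simp
    ring
  have h3 := h1.div (h2.pow j) (by norm_num)
  rw [one_pow, div_one] at h3
  refine h3.congr' ?_
  filter_upwards [eventually_ge_atTop (b + 2 * q + 2)] with X hX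
  have hX0 : (0 : ℝ) < X := by exact_mod_cast (by omega : 0 < X)
  have hX1 : (1 : ℝ) < X := by exact_mod_cast (by omega : 1 < X)
  have hl : 0 < Real.log X := Real.log_pos hX1
  have hd : 2 ≤ (X - b) / q := by
    rw [Nat.le_div_iff_mul_le (by omega)]
    omega
  have hd1 : (1 : ℝ) < (((X - b) / q : ℕ) : ℝ) := by exact_mod_cast (by omega : 1 < (X - b) / q)
  have hl2 : 0 < Real.log (((X - b) / q : ℕ) : ℝ) := Real.log_pos hd1
  simp only [Pi.div_apply]
  rw [div_pow]
  field_simp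

end Pool.Agent.H90.SH
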