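import Pool.Agent.H90.SH.Cls2

/-! # The formula in the fixed classes -/

set_option autoImplicit false

namespace Pool.Agent.H90.SH

open Finset Polynomial Filter Topology Pool.Agent.H90.SK
open Pool.Agent.H373R2.T7 (sysC sysC_pos sysQ sysQ_per Vz Vz_inv_small sing_low)
open Pool.Agent.H373R2.T7.SHN (AllPrime Q1 X1 omega sing NoFixedDivisor omega_lt expected sF sσ sA sF_deg sF_lc sσ_pm
  sing_eq sing_ne_zero)
open Pool.Agent.Results.MP_0bf1d2_nt.EveryNLargeModuli (count G_facts X₀)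

variable {g : ℕ}

/-- the main term is large -/
theorem R_large {F : Fin g → ℤ[X]} (hF : ∀ i, 1 ≤ (F i).natDegree) (hFl : ∀ i, 0 < (F i).leadingCoeff) {G : ℤ[X]}
    (hG : 1 ≤ G.natDegree) (hGl : 0 < G.leadingCoeff) {ρ : ℝ} (hρ : 0 < ρ) (E : ℕ) (K₀ : ℝ) :
    ∃ x₁ : ℕ, ∀ x : ℕ, x₁ ≤ x → ∀ (N : ℕ) (a : Fin g → ℕ) (z : ℕ), 1 ≤ z → (z : ℝ) ≤ Real.log x ^ E → X1 G N ≤ x →
      ρ * x ≤ X1 G N → NoFixedDivisor F a G N → K₀ ≤ expected F a G N z := by
  set m : ℕ := sysC (sF F G) with hm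
  have hm1 : 1 ≤ m := sysC_pos _
  obtain ⟨N₀, hN₀⟩ := Vz_inv_small E
  obtain ⟨cm, hcm⟩ : ∃ cm, cm = (1 / (3 * m : ℝ)) ^ (3 * m) * Real.exp (-(2 * (m : ℝ) ^ 2)) := ⟨_, rfl⟩
  have hm0 : (0 : ℝ) < m := by exact_mod_cast hm1
  have hcm0 : 0 < cm := by rw [hcm]; positivity
  obtain ⟨D₀, hD₀⟩ : ∃ D₀, D₀ = (G.natDegree : ℝ) * ∏ i, ((F i).natDegree : ℝ) := ⟨_, rfl⟩
  have hD₀0 : 0 < D₀ := by
    rw [hD₀]
    apply mul_pos (by exact_mod_cast hG)
    exact prod_pos fun i _ => by exact_mod_cast hF i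
  have h1 : ∀ᶠ x : ℝ in atTop, ‖Real.log x ^ (m + (g + 1))‖ ≤ (cm * ρ / (D₀ * (|K₀| + 1))) * ‖id x‖ :=
    (Real.isLittleO_pow_log_id_atTop (n := m + (g + 1))).def (by positivity)
  have h2 : ∀ᶠ x : ℝ in atTop, 1 ≤ Real.log x := Real.tendsto_log_atTop.eventually_ge_atTop 1
  obtain ⟨x₂, hx₂⟩ := eventually_atTop.1 ((tendsto_natCast_atTop_atTop (R := ℝ)).eventually (h1.and h2))
  refine ⟨max (max N₀ x₂) (max 1 ⌈2 / ρ⌉₊), fun x hx N a z hz hzE hXx hρX hfix => ?_⟩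
  have hxN : N₀ ≤ x := ((le_max_left _ _).trans (le_max_left _ _)).trans hx
  have hxx : x₂ ≤ x := ((le_max_right _ _).trans (le_max_left _ _)).trans hx
  have hx1 : 1 ≤ x := ((le_max_left _ _).trans (le_max_right _ _)).trans hx
  have hx2 : ⌈2 / ρ⌉₊ ≤ x := ((le_max_right _ _).trans (le_max_right _ _)).trans hx
  have hx0 : (0 : ℝ) < x := by exact_mod_cast hx1
  obtain ⟨e1, e2⟩ := hx₂ x hxx
  have hV := hN₀ x hxN z hz hzE
  have hXge : (2 : ℝ) ≤ X1 G N := by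
    have h3 : 2 / ρ ≤ x := (Nat.le_ceil _).trans (by exact_mod_cast hx2)
    rw [div_le_iff₀ hρ] at h3
    linarith
  have hX0 : (0 : ℝ) < X1 G N := by linarith
  have hlX : 0 < Real.log (X1 G N) := Real.log_pos (by linarith)
  have hlXx : Real.log (X1 G N) ≤ Real.log x := Real.log_le_log hX0 (by exact_mod_cast hXx)
  have hs := sing_ne_zero F a G N z hfix
  rw [sing_eq] at hs
  have hlow := sing_low (k := g + 1) (sysQ (sF F G) sσ (sA N a)) m hm1
    (sysQ_per (sF F G) (sF_deg F G hF hG) (sF_lc F G hFl hGl) sσ sσ_pm (sA N a)) z (Real.log x) e2 hV hs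
  rw [← sing_eq, ← hcm] at hlow
  rw [Real.norm_of_nonneg (by positivity), id, Real.norm_of_nonneg hx0.le] at e1
  have hlx : 0 < Real.log x := by linarith
  unfold expected
  rw [← hD₀]
  have h3 : cm / Real.log x ^ m * (ρ * x) / (D₀ * Real.log x ^ (g + 1)) ≤
      sing F a G N z * X1 G N / (D₀ * Real.log (X1 G N) ^ (g + 1)) := by
    apply div_le_div₀
    · exact mul_nonneg (le_trans (by positivity) hlow) hX0.le
    · exact mul_le_mul hlow hρX (by positivity) (le_trans (by positivity) hlow)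
    · positivity
    · apply mul_le_mul_of_nonneg_left _ hD₀0.le
      exact pow_le_pow_left₀ hlX.le hlXx _
  refine le_trans ?_ h3
  rw [le_div_iff₀ (by positivity)]
  have h4 : |K₀| * (D₀ * Real.log x ^ (g + 1)) * Real.log x ^ m ≤ cm * (ρ * x) := by
    have h5 := mul_le_mul_of_nonneg_left e1 (by positivity : 0 ≤ D₀ * (|K₀| + 1))
    have h6 : D₀ * (|K₀| + 1) * (cm * ρ / (D₀ * (|K₀| + 1)) * x) = cm * (ρ * x) := by
      field_simp
    rw [h6] at h5
    have h7 : Real.log x ^ (m + (g + 1)) = Real.log x ^ (g + 1) * Real.log x ^ m := by rw [← pow_add]; congr 1; ring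
    rw [h7] at h5
    have h8 : 0 ≤ D₀ * (Real.log x ^ (g + 1) * Real.log x ^ m) := by positivity
    nlinarith
  have h5 : K₀ * (D₀ * Real.log x ^ (g + 1)) ≤ |K₀| * (D₀ * Real.log x ^ (g + 1)) :=
    mul_le_mul_of_nonneg_right (le_abs_self _) (by positivity)
  refine h5.trans ?_
  rw [div_mul_eq_mul_div, le_div_iff₀ (by positivity)]
  exact h4

/-- the initial segment -/
theorem seg {G : ℤ[X]} (hG : 1 ≤ G.natDegree) (hGl : 0 < G.leadingCoeff) {ρ : ℝ} (hρ : 0 < ρ) :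
    ∃ x₁ : ℕ, ∀ x : ℕ, x₁ ≤ x → ∀ N : ℕ, ρ * x ≤ X1 G N →
      ∀ n : ℕ, (1 ≤ n ∧ 0 < (N : ℤ) - G.eval (n : ℤ)) ↔ (1 ≤ n ∧ n ≤ X1 G N) := by
  obtain ⟨N₀, hN₀⟩ := eventually_atTop.1 (G_facts G hG hGl).2
  set W : ℕ := ∑ N ∈ range N₀, X1 G N with hW
  refine ⟨⌈((W : ℝ) + 1) / ρ⌉₊, fun x hx N hN => ?_⟩
  have h1 : ((W : ℝ) + 1) / ρ ≤ x := (Nat.le_ceil _).trans (by exact_mod_cast hx)
  rw [div_le_iff₀ hρ] at h1
  have h2 : N₀ ≤ N := by
    by_contra hcon
    have h3 : X1 G N ≤ W := single_le_sum (f := fun N => X1 G N) (fun _ _ => Nat.zero_le _) (mem_range.2 (not_le.1 hcon))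
    have h4 : ((X1 G N : ℕ) : ℝ) ≤ W := by exact_mod_cast h3
    linarith
  exact hN₀ N h2

/-- the condition in one class -/
def Good (F : Fin g → ℤ[X]) (G : ℤ[X]) (ε : ℝ) (x z : ℕ) (a : Fin g → ℕ) (N q b : ℕ) : Prop :=
  NoFixedDivisor (fun i => cl (F i) q b) a (cl G q b) N → ε * x ≤ X1 (cl G q b) N →
    |(Q1 (fun i => cl (F i) q b) a (cl G q b) N : ℝ) - expected (fun i => cl (F i) q b) a (cl G q b) N z| ≤
      ε * expected (fun i => cl (F i) q b) a (cl G q b) N z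

theorem mm_le_one (Om : ℕ → Finset ℕ) (q a : ℕ) : mm Om q a ≤ 1 := by
  classical
  unfold mm
  split_ifs with h
  · rcases Nat.eq_zero_or_pos (ad Om q) with h0 | h0
    · rw [h0]
      simp
    · have : (1 : ℝ) ≤ ad Om q := by exact_mod_cast h0
      exact (div_le_one (by linarith)).2 this
  · norm_num

/-- **The fixed classes.** -/
theorem fixed {F : Fin g → ℤ[X]} (hF : ∀ i, 1 ≤ (F i).natDegree) (hFl : ∀ i, 0 < (F i).leadingCoeff) {G : ℤ[X]}
    (hG : 1 ≤ G.natDegree) (hGl : 0 < G.leadingCoeff) {ρ κ : ℝ} (hρ : 0 < ρ) (hκ : 0 < κ) (hκ1 : κ ≤ 1) (P : ℕ)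
    (hP : 1 ≤ P) (E : ℕ) :
    ∃ x₁ : ℕ, ∀ x : ℕ, x₁ ≤ x → ∀ (N : ℕ) (a : Fin g → ℕ) (z : ℕ), P ≤ z → (z : ℝ) ≤ Real.log x ^ E → X1 G N ≤ x →
      ρ * x ≤ X1 G N → NoFixedDivisor F a G N →
      (∀ q b, 1 ≤ q → q ≤ P → b < q → Good F G (min (κ / 8) (ρ / (4 * P))) x z a N q b) →
      ∀ q b, 1 ≤ q → q ≤ P → b < q →
        |count (Sol F a G N) (X1 G N) q b - expected F a G N z * mm (omP (sy F a G N)) q b| ≤
          κ * expected F a G N z := by
  classical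
  have hP0 : (0 : ℝ) < P := by exact_mod_cast hP
  set D : ℕ := (∑ i, (F i).natDegree) + G.natDegree with hD
  obtain ⟨x₂, hx₂⟩ := R_large hF hFl hG hGl hρ E (((D : ℝ) + 4) / κ)
  obtain ⟨x₃, hx₃⟩ := seg hG hGl hρ
  -- the ratio
  have hrat : ∀ q b : ℕ, ∃ X₀ : ℕ, 1 ≤ q → ∀ X : ℕ, X₀ ≤ X →
      |((((X - b) / q : ℕ) : ℝ) / Real.log (((X - b) / q : ℕ) : ℝ) ^ (g + 1)) * (Real.log X ^ (g + 1) * q / X) - 1| ≤ κ / 8 := by
    intro q b
    by_cases hq : 1 ≤ q
    · have h1 := (Metric.tendsto_nhds.1 (lim_ratio hq b (g + 1)) (κ / 8) (by positivity))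
      obtain ⟨X₀, hX₀⟩ := eventually_atTop.1 h1
      refine ⟨X₀, fun _ X hX => ?_⟩
      have := (hX₀ X hX).le
      rwa [Real.dist_eq] at this
    · exact ⟨0, fun h => absurd h hq⟩
  choose X₀ hX₀ using hrat
  set XX : ℕ := ∑ q ∈ range (P + 1), ∑ b ∈ range (P + 1), X₀ q b with hXX
  have hXX2 : ∀ q b, q ≤ P → b ≤ P → X₀ q b ≤ XX := by
    intro q b hq hb
    calc X₀ q b ≤ ∑ b ∈ range (P + 1), X₀ q b :=
          single_le_sum (f := fun b => X₀ q b) (fun _ _ => Nat.zero_le _) (mem_range.2 (by omega))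
      _ ≤ XX := single_le_sum (f := fun q => ∑ b ∈ range (P + 1), X₀ q b) (fun _ _ => Nat.zero_le _)
          (mem_range.2 (by omega))
  refine ⟨max (max x₂ x₃) (max ⌈8 * (P : ℝ) / ρ⌉₊ ⌈((XX : ℝ) + 2) / ρ⌉₊), fun x hx N a z hPz hzE hXx hρX hfix hgood => ?_⟩
  have hxa : x₂ ≤ x := ((le_max_left _ _).trans (le_max_left _ _)).trans hx
  have hxb : x₃ ≤ x := ((le_max_right _ _).trans (le_max_left _ _)).trans hx
  have hxc : ⌈8 * (P : ℝ) / ρ⌉₊ ≤ x := ((le_max_left _ _).trans (le_max_right _ _)).trans hx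
  have hxd : ⌈((XX : ℝ) + 2) / ρ⌉₊ ≤ x := ((le_max_right _ _).trans (le_max_right _ _)).trans hx
  have hR := hx₂ x hxa N a z (hP.trans hPz) hzE hXx hρX hfix
  have hseg := hx₃ x hxb N hρX
  have hxc' : 8 * (P : ℝ) ≤ ρ * x := by
    have h1 : 8 * (P : ℝ) / ρ ≤ x := (Nat.le_ceil _).trans (by exact_mod_cast hxc)
    rw [div_le_iff₀ hρ] at h1
    linarith
  have hxd' : (XX : ℝ) + 2 ≤ ρ * x := by
    have h1 : ((XX : ℝ) + 2) / ρ ≤ x := (Nat.le_ceil _).trans (by exact_mod_cast hxd)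
    rw [div_le_iff₀ hρ] at h1
    linarith
  obtain ⟨R, hRd⟩ : ∃ R, R = expected F a G N z := ⟨_, rfl⟩
  rw [← hRd] at hR ⊢
  rw [div_le_iff₀ hκ] at hR
  have hR0 : 0 < R := by
    have h1 : (0 : ℝ) ≤ D := Nat.cast_nonneg _
    have h2 : 0 < R * κ := by linarith
    exact (pos_iff_pos_of_mul_pos h2).2 hκ
  intro q b hq hqP hb
  have hq0 : (0 : ℝ) < q := by exact_mod_cast hq
  by_cases hop : Op F a G N q b
  · -- an open class
    set w := mm (omP (sy F a G N)) q b with hw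
    have hw1 : w ≤ 1 := mm_le_one _ q b
    have hw0 : 0 ≤ w := mm_nonneg _ q b
    set X := X1 G N with hX
    have hXX0 : XX ≤ X := by
      have : (XX : ℝ) ≤ X := by linarith
      exact_mod_cast this
    have hXr : 8 * (P : ℝ) ≤ X := by linarith
    have hX0 : (0 : ℝ) < X := by linarith
    have hlX : 0 < Real.log X := Real.log_pos (by
      have : (1 : ℝ) ≤ P := by exact_mod_cast hP
      linarith)
    -- the cut off
    have hX' : X1 (cl G q b) N = (X - b) / q := X1_cl hseg hq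
    have hX'low : (X : ℝ) / (2 * P) ≤ (((X - b) / q : ℕ) : ℝ) := by
      have h1 : X ≤ (X - b) / q * q + b + q := by
        have h3 := Nat.lt_div_mul_add (a := X - b) (b := q) (by omega)
        omega
      have h2 : (X : ℝ) ≤ (((X - b) / q : ℕ) : ℝ) * q + b + q := by exact_mod_cast h1
      have h3 : (b : ℝ) ≤ P := by exact_mod_cast (by omega : b ≤ P)
      have h4 : (q : ℝ) ≤ P := by exact_mod_cast hqP
      have h5 : (0 : ℝ) ≤ (((X - b) / q : ℕ) : ℝ) := Nat.cast_nonneg _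
      rw [div_le_iff₀ (by positivity)]
      have h6 : (((X - b) / q : ℕ) : ℝ) * q ≤ (((X - b) / q : ℕ) : ℝ) * P := mul_le_mul_of_nonneg_left h4 h5
      nlinarith
    obtain ⟨ε', hε'⟩ : ∃ ε', ε' = min (κ / 8) (ρ / (4 * P)) := ⟨_, rfl⟩
    have hε'1 : ε' ≤ κ / 8 := by rw [hε']; exact min_le_left _ _
    have hε'2 : ε' ≤ ρ / (4 * P) := by rw [hε']; exact min_le_right _ _
    have hε'0 : 0 < ε' := by rw [hε']; exact lt_min (by positivity) (by positivity)
    have hcut : ε' * x ≤ X1 (cl G q b) N := by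
      rw [hX']
      refine le_trans ?_ hX'low
      have h1 : ε' * x ≤ ρ / (4 * P) * x := mul_le_mul_of_nonneg_right hε'2 (Nat.cast_nonneg _)
      have h2 : ρ / (4 * P) * x = (ρ * x) / (4 * P) := by ring
      have h3 : (ρ * x) / (4 * P) ≤ X / (4 * P) := div_le_div_of_nonneg_right hρX (by positivity)
      have h4 : (X : ℝ) / (4 * P) ≤ X / (2 * P) := by
        apply div_le_div_of_nonneg_left hX0.le (by positivity)
        linarith
      linarith
    have h1 := hgood q b hq hqP hb (nofix_cl hfix hq hop) (by rw [← hε']; exact hcut)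
    rw [← hε'] at h1
    have h2 := count_Q1 (F := F) (a := a) hseg hb
    rw [← hX] at h2
    obtain ⟨e', he'⟩ : ∃ e', e' = expected (fun i => cl (F i) q b) a (cl G q b) N z := ⟨_, rfl⟩
    rw [← he'] at h1
    -- the ratio
    obtain ⟨rat, hratd⟩ : ∃ rat, rat = ((((X - b) / q : ℕ) : ℝ) / Real.log (((X - b) / q : ℕ) : ℝ) ^ (g + 1)) *
      (Real.log X ^ (g + 1) * q / X) := ⟨_, rfl⟩
    have hr1 : |rat - 1| ≤ κ / 8 := by
      rw [hratd]
      exact hX₀ q b hq X ((hXX2 q b hqP (by omega)).trans hXX0)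
    have hadm := adm_sy hF hG hfix
    have hprod : ∏ p ∈ q.primeFactors, (1 - ((omP (sy F a G N) p).card : ℝ) / p) =
        ∏ p ∈ q.primeFactors, (1 - (omega F a G N p : ℝ) / p) := by
      apply prod_congr rfl
      intro p hp
      rw [omP_sy F a G N (Nat.prime_of_mem_primeFactors hp)]
    have hw2 : w * (q * ∏ p ∈ q.primeFactors, (1 - (omega F a G N p : ℝ) / p)) = 1 := by
      have h3 := ad_eq hadm hq
      have h4 := ad_pos hadm hq
      rw [hprod] at h3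
      rw [← h3, hw]
      unfold mm
      rw [if_pos ((AD_sy F a G N b).2 hop)]
      field_simp
    have hsing := sing_cl F a G N hq (hqP.trans hPz) hop
    have he2 : e' = rat * (R * w) := by
      rw [he', hRd, hratd]
      unfold expected
      simp only [cl_deg _ _ hq]
      rw [hX', ← hsing, ← hX]
      obtain ⟨π₀, hπ₀⟩ : ∃ π₀, π₀ = ∏ p ∈ q.primeFactors, (1 - (omega F a G N p : ℝ) / p) := ⟨_, rfl⟩
      obtain ⟨s, hs⟩ : ∃ s, s = sing (fun i => cl (F i) q b) a (cl G q b) N z := ⟨_, rfl⟩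
      obtain ⟨d, hd⟩ : ∃ d, d = (G.natDegree : ℝ) * ∏ i, ((F i).natDegree : ℝ) := ⟨_, rfl⟩
      obtain ⟨u, hu⟩ : ∃ u, u = (((X - b) / q : ℕ) : ℝ) := ⟨_, rfl⟩
      obtain ⟨v, hv⟩ : ∃ v, v = Real.log u ^ (g + 1) := ⟨_, rfl⟩
      obtain ⟨t, ht⟩ : ∃ t, t = Real.log (X : ℝ) ^ (g + 1) := ⟨_, rfl⟩
      have ht0 : t ≠ 0 := by rw [ht]; positivity
      rw [← hπ₀] at hw2 ⊢
      rw [← hs, ← hd, ← hu, ← hv, ← ht]
      have e1 : u / v * (t * q / X) * (s * π₀ * X / (d * t) * w) = (s * u / (d * v)) * (w * (q * π₀)) := by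
        by_cases hd0 : d = 0
        · rw [hd0]
          simp
        by_cases hv0 : v = 0
        · rw [hv0]
          simp
        field_simp
      rw [e1, hw2, mul_one]
    have hRw : 0 ≤ R * w := mul_nonneg hR0.le hw0
    have hRw1 : R * w ≤ R := mul_le_of_le_one_right hR0.le hw1
    rw [abs_le] at hr1
    have he3 : |e' - R * w| ≤ κ / 8 * R := by
      have : e' - R * w = (rat - 1) * (R * w) := by rw [he2]; ring
      rw [this, abs_mul, abs_of_nonneg hRw]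
      calc |rat - 1| * (R * w) ≤ κ / 8 * (R * w) := mul_le_mul_of_nonneg_right (abs_le.2 hr1) hRw
        _ ≤ κ / 8 * R := mul_le_mul_of_nonneg_left hRw1 (by positivity)
    have he4 : ε' * e' ≤ κ / 4 * R := by
      rw [abs_le] at he3
      have h3 : e' ≤ 2 * R := by
        have : κ / 8 * R ≤ R := by nlinarith
        linarith [he3.2]
      calc ε' * e' ≤ ε' * (2 * R) := mul_le_mul_of_nonneg_left h3 hε'0.le
        _ ≤ κ / 8 * (2 * R) := mul_le_mul_of_nonneg_right hε'1 (by positivity)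
        _ = _ := by ring
    have hone : 1 ≤ κ / 4 * R := by
      have h3 : (0 : ℝ) ≤ D := Nat.cast_nonneg _
      linarith
    rw [abs_le] at h1 h2 he3 ⊢
    have hκR : 0 ≤ κ * R := by positivity
    constructor
    · linarith [h1.1, h2.1, he3.1]
    · linarith [h1.2, h2.2, he3.2]
  · -- a closed class
    have h1 := closed_count hF hG (x := X1 G N) hop
    have h2 : mm (omP (sy F a G N)) q b = 0 := by
      unfold mm
      rw [if_neg (fun h => hop ((AD_sy F a G N b).1 h))]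
    have h3 : 0 ≤ count (Sol F a G N) (X1 G N) q b := by
      unfold count
      exact Nat.cast_nonneg _
    rw [h2, mul_zero, sub_zero, abs_of_nonneg h3]
    refine h1.trans ?_
    rw [← hD]
    linarith

end Pool.Agent.H90.SH
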