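import Pool.Agent.H90.SH.Stm
import Pool.Graph.R_seed8.H318R2.Cr.Prod

/-! # Project SH (helper90), module Three (the ratio of the truncated singular series) -/

set_option autoImplicit false

namespace Pool.Agent.H90.SH

open Finset Polynomial Pool.Agent.H373R2.T7

/-- Bonferroni -/
theorem three_bonf {k : ℕ} (B : Fin k → Finset ℕ) (s : Finset (Fin k)) :
    ∑ i ∈ s, (B i).card ≤ (s.biUnion B).card + ∑ j ∈ s, ∑ i ∈ s.filter (· < j), (B i ∩ B j).card := by
  classical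
  induction s using Finset.induction_on_max with
  | empty => simp
  | insert j s hs ih =>
    have hj : j ∉ s := fun h => lt_irrefl _ (hs j h)
    rw [Finset.sum_insert hj, Finset.biUnion_insert, Finset.sum_insert hj]
    have h1 : (B j ∪ s.biUnion B).card + (B j ∩ s.biUnion B).card = (B j).card + (s.biUnion B).card :=
      Finset.card_union_add_card_inter _ _
    have h2 : (B j ∩ s.biUnion B).card ≤ ∑ i ∈ s, (B i ∩ B j).card := by
      have : B j ∩ s.biUnion B ⊆ s.biUnion (fun i => B i ∩ B j) := by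
        intro r hr
        simp only [Finset.mem_inter, Finset.mem_biUnion] at hr ⊢
        obtain ⟨h, i, hi, hri⟩ := hr
        exact ⟨i, hi, hri, h⟩
      exact (Finset.card_le_card this).trans Finset.card_biUnion_le
    have h3 : (insert j s).filter (· < j) = s := by
      ext i
      simp only [Finset.mem_filter, Finset.mem_insert]
      constructor
      · rintro ⟨rfl | h, h'⟩
        · exact absurd h' (lt_irrefl _)
        · exact h
      · intro h; exact ⟨Or.inr h, hs i h⟩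
    have h4 : ∑ j' ∈ s, ∑ i ∈ s.filter (· < j'), (B i ∩ B j').card ≤
        ∑ j' ∈ s, ∑ i ∈ (insert j s).filter (· < j'), (B i ∩ B j').card :=
      Finset.sum_le_sum (fun j' _ => Finset.sum_le_sum_of_subset
        (Finset.filter_subset_filter _ (Finset.subset_insert _ _)))
    rw [h3]
    omega

theorem three_rho_eq {k : ℕ} (F : Fin k → ℤ[X]) (σ : Fin k → ℤ) (a : Fin k → ℕ) (p : ℕ) (i : Fin k) :
    rho (F i) (σ i) (a i) p = ((range p).filter (fun r : ℕ => (p : ℤ) ∣ vl F σ a i r)).card := by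
  unfold rho vl
  rfl

theorem three_com_eq {k : ℕ} (F : Fin k → ℤ[X]) (σ : Fin k → ℤ) (a : Fin k → ℕ) (p : ℕ) (i j : Fin k) :
    com (F i) (F j) (σ i) (σ j) (a i) (a j) p =
      (((range p).filter (fun r : ℕ => (p : ℤ) ∣ vl F σ a i r)) ∩ ((range p).filter (fun r : ℕ => (p : ℤ) ∣ vl F σ a j r))).card := by
  rw [← Finset.filter_and]
  unfold com vl
  rfl

theorem three_nu_eq {k : ℕ} (F : Fin k → ℤ[X]) (σ : Fin k → ℤ) (a : Fin k → ℕ) (p : ℕ) :
    nuB (sysQ F σ a) p = ((univ : Finset (Fin k)).biUnion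
      (fun i => (range p).filter (fun r : ℕ => (p : ℤ) ∣ vl F σ a i r))).card := by
  classical
  unfold nuB
  congr 1
  ext r
  simp only [Finset.mem_filter, Finset.mem_biUnion, Finset.mem_univ, true_and, sysQ]
  constructor
  · rintro ⟨h, i, hi⟩; exact ⟨i, h, hi⟩
  · rintro ⟨i, h, hi⟩; exact ⟨h, i, hi⟩

theorem three_nu_le {k : ℕ} (F : Fin k → ℤ[X]) (σ : Fin k → ℤ) (a : Fin k → ℕ) (p : ℕ) :
    nuB (sysQ F σ a) p ≤ ∑ i, rho (F i) (σ i) (a i) p := by
  rw [three_nu_eq]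
  simp only [three_rho_eq]
  exact Finset.card_biUnion_le

theorem three_le_nu {k : ℕ} (F : Fin k → ℤ[X]) (σ : Fin k → ℤ) (a : Fin k → ℕ) (p : ℕ) :
    ∑ i, rho (F i) (σ i) (a i) p ≤ nuB (sysQ F σ a) p +
      ∑ j, ∑ i ∈ univ.filter (· < j), com (F i) (F j) (σ i) (σ j) (a i) (a j) p := by
  rw [three_nu_eq]
  simp only [three_rho_eq, three_com_eq]
  exact three_bonf _ _

theorem three_V_split {y X : ℕ} (h : y ≤ X) :
    Pool.Agent.H318R2.Cr.V X = Pool.Agent.H318R2.Cr.V y * ∏ p ∈ pr y X, (1 - 1 / (p : ℝ)) := by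
  classical
  unfold Pool.Agent.H318R2.Cr.V pr Pool.Agent.H318R2.Cr.Pz
  rw [← Finset.prod_union]
  · rw [← Finset.filter_union]
    congr 2
    ext n
    simp only [Finset.mem_Ioc, Finset.mem_union]
    omega
  · rw [Finset.disjoint_left]
    intro n h1 h2
    simp only [Finset.mem_filter, Finset.mem_Ioc] at h1 h2
    omega

theorem three_split {z y X : ℕ} (h1 : z ≤ y) (h2 : y ≤ X) (f : ℕ → ℝ) :
    ∏ p ∈ pr z X, f p = (∏ p ∈ pr z y, f p) * ∏ p ∈ pr y X, f p := by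
  classical
  unfold pr
  rw [← Finset.prod_union]
  · rw [← Finset.filter_union]
    congr 2
    ext n
    simp only [Finset.mem_Ioc, Finset.mem_union]
    omega
  · rw [Finset.disjoint_left]
    intro n h1 h2
    simp only [Finset.mem_filter, Finset.mem_Ioc] at h1 h2
    omega

theorem three : StmThree := by
  intro k m K
  obtain ⟨c₁, c₂, hc1, hc12, hcz⟩ := Pool.Agent.H318R2.Cr.cz_bounds
  have hc2 : 0 < c₂ := hc1.trans_le hc12
  set K' : ℝ := (K : ℝ) + 1 with hK'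
  have hK0 : 0 < K' := by positivity
  refine ⟨Real.exp (-((k:ℝ) + k * k) - 4 * (m:ℝ) ^ 2) * (c₁ / (c₂ * K')) ^ (2 * m),
    Real.exp ((k:ℝ) + k * k + 4 * k) * ((c₂ * K') / c₁) ^ k, 2 * m + 2, by positivity, by positivity, ?_⟩
  intro F σ a hd hl hσ hC z y X hz hzy hyX hXK hrho hcom
  have hper := sysQ_per F hd hl σ hσ a
  set ν : ℕ → ℕ := nuB (sysQ F σ a) with hν
  have hνm : ∀ p : ℕ, p.Prime → (ν p : ℝ) ≤ m := by
    intro p hp
    exact_mod_cast (hper.few p hp).trans hC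
  have hmem : ∀ {u w p : ℕ}, p ∈ pr u w → p.Prime ∧ u < p ∧ p ≤ w := by
    intro u w p hp
    simp only [pr, Finset.mem_filter, Finset.mem_Ioc] at hp
    exact ⟨hp.2, hp.1.1, hp.1.2⟩
  -- elementary facts on primes p > z
  have hfac : ∀ p : ℕ, p.Prime → z < p → 0 < (p:ℝ) ∧ 0 ≤ (ν p : ℝ) / p ∧ (ν p : ℝ) / p ≤ 1 / 2 ∧
      0 < 1 / (p : ℝ) ∧ 1 / (p : ℝ) ≤ 1 / 2 := by
    intro p hp hzp
    have hp0 : (0:ℝ) < p := by exact_mod_cast hp.pos
    have hp2 : (2:ℝ) * m + 2 ≤ p := by exact_mod_cast (hz.trans hzp.le)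
    have hm0 : (0:ℝ) ≤ m := by positivity
    refine ⟨hp0, by positivity, ?_, by positivity, ?_⟩
    · rw [div_le_div_iff₀ hp0 (by norm_num)]
      have := hνm p hp
      linarith
    · rw [div_le_div_iff₀ hp0 (by norm_num)]
      linarith
  set D : ℝ := ∑ p ∈ pr z y, ((k : ℝ) - ν p) / p with hD
  -- bounds of D
  have hDlow : -(k:ℝ) ≤ D := by
    have h1 : ∑ i : Fin k, ∑ p ∈ pr z y, (1 - (rho (F i) (σ i) (a i) p : ℝ)) / p ≤ D := by
      rw [Finset.sum_comm]
      refine Finset.sum_le_sum (fun p hp => ?_)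
      have hp0 : (0:ℝ) < p := by exact_mod_cast (hmem hp).1.pos
      rw [← Finset.sum_div]
      refine div_le_div_of_nonneg_right ?_ hp0.le
      rw [Finset.sum_sub_distrib]
      simp only [Finset.sum_const, Finset.card_univ, Fintype.card_fin, nsmul_eq_mul, mul_one]
      have : (ν p : ℝ) ≤ ∑ i : Fin k, (rho (F i) (σ i) (a i) p : ℝ) := by
        exact_mod_cast three_nu_le F σ a p
      linarith
    have h2 : ∑ i : Fin k, (-1:ℝ) ≤ ∑ i : Fin k, ∑ p ∈ pr z y, (1 - (rho (F i) (σ i) (a i) p : ℝ)) / p :=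
      Finset.sum_le_sum (fun i _ => (abs_le.mp (hrho i)).1)
    have h3 : ∑ i : Fin k, (-1:ℝ) = -(k:ℝ) := by simp
    linarith
  have hDup : D ≤ (k:ℝ) + k * k := by
    have h1 : D ≤ ∑ i : Fin k, ∑ p ∈ pr z y, (1 - (rho (F i) (σ i) (a i) p : ℝ)) / p +
        ∑ j : Fin k, ∑ i ∈ univ.filter (· < j), ∑ p ∈ pr z y, (com (F i) (F j) (σ i) (σ j) (a i) (a j) p : ℝ) / p := by
      have e : ∑ j : Fin k, ∑ i ∈ univ.filter (· < j), ∑ p ∈ pr z y, (com (F i) (F j) (σ i) (σ j) (a i) (a j) p : ℝ) / p =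
          ∑ p ∈ pr z y, (∑ j : Fin k, ∑ i ∈ univ.filter (· < j), (com (F i) (F j) (σ i) (σ j) (a i) (a j) p : ℝ)) / p := by
        calc _ = ∑ j : Fin k, ∑ p ∈ pr z y, ∑ i ∈ univ.filter (· < j), (com (F i) (F j) (σ i) (σ j) (a i) (a j) p : ℝ) / p :=
              Finset.sum_congr rfl (fun j _ => Finset.sum_comm)
          _ = ∑ p ∈ pr z y, ∑ j : Fin k, ∑ i ∈ univ.filter (· < j), (com (F i) (F j) (σ i) (σ j) (a i) (a j) p : ℝ) / p :=
              Finset.sum_comm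
          _ = _ := by
              refine Finset.sum_congr rfl (fun p _ => ?_)
              rw [Finset.sum_div]
              refine Finset.sum_congr rfl (fun j _ => ?_)
              rw [Finset.sum_div]
      rw [e, Finset.sum_comm, ← Finset.sum_add_distrib]
      refine Finset.sum_le_sum (fun p hp => ?_)
      have hp0 : (0:ℝ) < p := by exact_mod_cast (hmem hp).1.pos
      rw [← Finset.sum_div, ← add_div]
      refine div_le_div_of_nonneg_right ?_ hp0.le
      rw [Finset.sum_sub_distrib]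
      simp only [Finset.sum_const, Finset.card_univ, Fintype.card_fin, nsmul_eq_mul, mul_one]
      have : ∑ i : Fin k, (rho (F i) (σ i) (a i) p : ℝ) ≤ ν p +
          ∑ j : Fin k, ∑ i ∈ univ.filter (· < j), (com (F i) (F j) (σ i) (σ j) (a i) (a j) p : ℝ) := by
        exact_mod_cast three_le_nu F σ a p
      linarith
    have h2 : ∑ i : Fin k, ∑ p ∈ pr z y, (1 - (rho (F i) (σ i) (a i) p : ℝ)) / p ≤ k := by
      calc _ ≤ ∑ i : Fin k, (1:ℝ) := Finset.sum_le_sum (fun i _ => (abs_le.mp (hrho i)).2)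
        _ = k := by simp
    have h3 : ∑ j : Fin k, ∑ i ∈ univ.filter (· < j), ∑ p ∈ pr z y, (com (F i) (F j) (σ i) (σ j) (a i) (a j) p : ℝ) / p ≤ k * k := by
      calc _ ≤ ∑ j : Fin k, ∑ i ∈ (univ : Finset (Fin k)).filter (· < j), (1:ℝ) :=
            Finset.sum_le_sum (fun j _ => Finset.sum_le_sum (fun i hi => hcom i j (Finset.mem_filter.mp hi).2))
        _ ≤ ∑ j : Fin k, (k:ℝ) := by
            refine Finset.sum_le_sum (fun j _ => ?_)
            rw [Finset.sum_const, nsmul_eq_mul, mul_one]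
            have : ((univ : Finset (Fin k)).filter (· < j)).card ≤ k := by
              refine (Finset.card_filter_le _ _).trans ?_
              simp
            exact_mod_cast this
        _ = k * k := by simp
    linarith
  -- pointwise bounds
  have hlowA : ∀ p ∈ pr z y, Real.exp (((k : ℝ) - ν p) / p - 2 * (m:ℝ)^2 * (1 / (p:ℝ)^2)) ≤
      (1 - (ν p : ℝ) / p) / (1 - 1 / (p : ℝ)) ^ k := by
    intro p hp
    obtain ⟨hpp, hzp, -⟩ := hmem hp
    obtain ⟨hp0, ht0, ht1, hu0, hu1⟩ := hfac p hpp hzp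
    have h1 := Pool.Agent.H318R2.Cr.exp_le_one_sub ht0 ht1
    have h2 : (1 - 1 / (p : ℝ)) ^ k ≤ Real.exp (-(k * (1 / (p:ℝ)))) := by
      have : 1 - 1 / (p:ℝ) ≤ Real.exp (-(1 / (p:ℝ))) := by
        have := Real.add_one_le_exp (-(1 / (p:ℝ))); linarith
      calc (1 - 1 / (p : ℝ)) ^ k ≤ (Real.exp (-(1 / (p:ℝ)))) ^ k := pow_le_pow_left₀ (by linarith) this k
        _ = _ := by rw [← Real.exp_nat_mul]; ring_nf
    have hpos : 0 < (1 - 1 / (p : ℝ)) ^ k := pow_pos (by linarith) k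
    rw [le_div_iff₀ hpos]
    calc _ ≤ Real.exp (((k : ℝ) - ν p) / p - 2 * (m:ℝ)^2 * (1 / (p:ℝ)^2)) * Real.exp (-(k * (1 / (p:ℝ)))) :=
          mul_le_mul_of_nonneg_left h2 (Real.exp_pos _).le
      _ = Real.exp (-((ν p : ℝ) / p) - 2 * (m:ℝ)^2 * (1 / (p:ℝ)^2)) := by
          rw [← Real.exp_add]; congr 1; field_simp; ring
      _ ≤ Real.exp (-((ν p : ℝ) / p) - 2 * ((ν p : ℝ) / p) ^ 2) := by
          apply Real.exp_le_exp.mpr
          have h3 : ((ν p : ℝ) / p) ^ 2 ≤ (m:ℝ)^2 * (1 / (p:ℝ)^2) := by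
            rw [div_pow, mul_one_div]
            refine div_le_div_of_nonneg_right ?_ (by positivity)
            exact pow_le_pow_left₀ (by positivity) (hνm p hpp) 2
          linarith
      _ ≤ _ := h1
  have hupA : ∀ p ∈ pr z y, (1 - (ν p : ℝ) / p) / (1 - 1 / (p : ℝ)) ^ k ≤
      Real.exp (((k : ℝ) - ν p) / p + 2 * (k:ℝ) * (1 / (p:ℝ)^2)) := by
    intro p hp
    obtain ⟨hpp, hzp, -⟩ := hmem hp
    obtain ⟨hp0, ht0, ht1, hu0, hu1⟩ := hfac p hpp hzp
    have h1 : 1 - (ν p : ℝ) / p ≤ Real.exp (-((ν p : ℝ) / p)) := by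
      have := Real.add_one_le_exp (-((ν p : ℝ) / p)); linarith
    have h2 : Real.exp (-(k * (1 / (p:ℝ))) - 2 * (k:ℝ) * (1 / (p:ℝ)^2)) ≤ (1 - 1 / (p : ℝ)) ^ k := by
      calc _ = (Real.exp (-(1 / (p:ℝ)) - 2 * (1 / (p:ℝ)) ^ 2)) ^ k := by
            rw [← Real.exp_nat_mul]; congr 1; field_simp
        _ ≤ _ := pow_le_pow_left₀ (Real.exp_pos _).le (Pool.Agent.H318R2.Cr.exp_le_one_sub hu0.le hu1) k
    have hpos : 0 < (1 - 1 / (p : ℝ)) ^ k := pow_pos (by linarith) k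
    rw [div_le_iff₀ hpos]
    calc _ ≤ Real.exp (-((ν p : ℝ) / p)) := h1
      _ = Real.exp (((k : ℝ) - ν p) / p + 2 * (k:ℝ) * (1 / (p:ℝ)^2)) *
            Real.exp (-(k * (1 / (p:ℝ))) - 2 * (k:ℝ) * (1 / (p:ℝ)^2)) := by
          rw [← Real.exp_add]; congr 1; field_simp; ring
      _ ≤ _ := mul_le_mul_of_nonneg_left h2 (Real.exp_pos _).le
  have hsq := Pool.Agent.H318R2.Cr.sum_inv_sq (pr z y)
  have hA1 : Real.exp (-((k:ℝ) + k * k) - 4 * (m:ℝ) ^ 2) ≤ ∏ p ∈ pr z y, (1 - (ν p : ℝ) / p) / (1 - 1 / (p : ℝ)) ^ k := by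
    calc _ ≤ Real.exp (∑ p ∈ pr z y, (((k : ℝ) - ν p) / p - 2 * (m:ℝ)^2 * (1 / (p:ℝ)^2))) := by
          apply Real.exp_le_exp.mpr
          rw [Finset.sum_sub_distrib, ← Finset.mul_sum, ← hD]
          have h3 : 2 * (m:ℝ)^2 * ∑ p ∈ pr z y, (1 / (p:ℝ)^2) ≤ 2 * (m:ℝ)^2 * 2 :=
            mul_le_mul_of_nonneg_left hsq (by positivity)
          have h4 : (0:ℝ) ≤ (k:ℝ) * k := by positivity
          linarith
      _ = ∏ p ∈ pr z y, Real.exp (((k : ℝ) - ν p) / p - 2 * (m:ℝ)^2 * (1 / (p:ℝ)^2)) := Real.exp_sum _ _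
      _ ≤ _ := Finset.prod_le_prod (fun p _ => (Real.exp_pos _).le) hlowA
  have hnn : ∀ p : ℕ, p.Prime → z < p → 0 ≤ (1 - (ν p : ℝ) / p) / (1 - 1 / (p : ℝ)) ^ k := by
    intro p hpp hzp
    obtain ⟨hp0, ht0, ht1, hu0, hu1⟩ := hfac p hpp hzp
    exact div_nonneg (by linarith) (pow_nonneg (by linarith) k)
  have hA2 : ∏ p ∈ pr z y, (1 - (ν p : ℝ) / p) / (1 - 1 / (p : ℝ)) ^ k ≤ Real.exp ((k:ℝ) + k * k + 4 * k) := by
    calc _ ≤ ∏ p ∈ pr z y, Real.exp (((k : ℝ) - ν p) / p + 2 * (k:ℝ) * (1 / (p:ℝ)^2)) :=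
          Finset.prod_le_prod (fun p hp => hnn p (hmem hp).1 (hmem hp).2.1) hupA
      _ = Real.exp (∑ p ∈ pr z y, (((k : ℝ) - ν p) / p + 2 * (k:ℝ) * (1 / (p:ℝ)^2))) := (Real.exp_sum _ _).symm
      _ ≤ _ := by
          apply Real.exp_le_exp.mpr
          rw [Finset.sum_add_distrib, ← Finset.mul_sum, ← hD]
          have h3 : 2 * (k:ℝ) * ∑ p ∈ pr z y, (1 / (p:ℝ)^2) ≤ 2 * (k:ℝ) * 2 :=
            mul_le_mul_of_nonneg_left hsq (by positivity)
          linarith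
  -- the second range
  set W : ℝ := ∏ p ∈ pr y X, (1 - 1 / (p : ℝ)) with hW
  have hWpos : 0 < W := Finset.prod_pos (fun p hp => by
    obtain ⟨-, -, -, -, hu1⟩ := hfac p (hmem hp).1 (hzy.trans_lt (hmem hp).2.1)
    linarith)
  have hVX := three_V_split hyX
  rw [← hW] at hVX
  have hy2 : 2 ≤ y := by omega
  have hX2 : 2 ≤ X := by omega
  obtain ⟨hy_1, hy_2⟩ := hcz y hy2
  obtain ⟨hX_1, hX_2⟩ := hcz X hX2
  have hVy := Pool.Agent.H318R2.Cr.V_pos y
  have hlogy : 0 < Real.log y := Real.log_pos (by exact_mod_cast (by omega : 1 < y))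
  have hlogX : Real.log X ≤ K' * Real.log y := by
    have h1 : (X:ℝ) ≤ (y:ℝ) ^ K := by exact_mod_cast hXK
    have h2 : Real.log X ≤ Real.log ((y:ℝ) ^ K) := Real.log_le_log (by exact_mod_cast (by omega : 0 < X)) h1
    rw [Real.log_pow] at h2
    have : (K:ℝ) * Real.log y ≤ K' * Real.log y := mul_le_mul_of_nonneg_right (by rw [hK']; linarith) hlogy.le
    linarith
  have hWlow : c₁ / (c₂ * K') ≤ W := by
    rw [div_le_iff₀ (by positivity)]
    calc c₁ ≤ Pool.Agent.H318R2.Cr.V X * Real.log X := hX_1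
      _ = (Pool.Agent.H318R2.Cr.V y * W) * Real.log X := by rw [hVX]
      _ ≤ (Pool.Agent.H318R2.Cr.V y * W) * (K' * Real.log y) := mul_le_mul_of_nonneg_left hlogX (by positivity)
      _ = W * (Pool.Agent.H318R2.Cr.V y * Real.log y * K') := by ring
      _ ≤ W * (c₂ * K') := mul_le_mul_of_nonneg_left (mul_le_mul_of_nonneg_right hy_2 hK0.le) hWpos.le
  have hB1 : (c₁ / (c₂ * K')) ^ (2 * m) ≤ ∏ p ∈ pr y X, (1 - (ν p : ℝ) / p) / (1 - 1 / (p : ℝ)) ^ k := by
    calc _ ≤ W ^ (2 * m) := pow_le_pow_left₀ (by positivity) hWlow _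
      _ = ∏ p ∈ pr y X, (1 - 1 / (p : ℝ)) ^ (2 * m) := by rw [hW, Finset.prod_pow]
      _ ≤ _ := by
          refine Finset.prod_le_prod (fun p hp => ?_) (fun p hp => ?_)
          · obtain ⟨-, -, -, -, hu1⟩ := hfac p (hmem hp).1 (hzy.trans_lt (hmem hp).2.1)
            exact pow_nonneg (by linarith) _
          · obtain ⟨hp0, ht0, ht1, hu0, hu1⟩ := hfac p (hmem hp).1 (hzy.trans_lt (hmem hp).2.1)
            have h1 := Pool.Agent.H318R2.Cr.exp_le_one_sub ht0 ht1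
            have h2 : (1 - 1 / (p : ℝ)) ^ (2 * m) ≤ 1 - (ν p : ℝ) / p := by
              have h3 : 1 - 1 / (p:ℝ) ≤ Real.exp (-(1 / (p:ℝ))) := by
                have := Real.add_one_le_exp (-(1 / (p:ℝ))); linarith
              calc (1 - 1 / (p : ℝ)) ^ (2 * m) ≤ (Real.exp (-(1 / (p:ℝ)))) ^ (2 * m) :=
                    pow_le_pow_left₀ (by linarith) h3 _
                _ = Real.exp (-(2 * (m * (1 / (p:ℝ))))) := by
                    rw [← Real.exp_nat_mul]; congr 1; push_cast; ring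
                _ ≤ Real.exp (-((ν p : ℝ) / p) - 2 * ((ν p : ℝ) / p) ^ 2) := by
                    apply Real.exp_le_exp.mpr
                    have h4 : (ν p : ℝ) / p ≤ m * (1 / (p:ℝ)) := by
                      rw [mul_one_div]
                      exact div_le_div_of_nonneg_right (hνm p (hmem hp).1) hp0.le
                    have h5 : ((ν p : ℝ) / p) ^ 2 ≤ (1/2) * ((ν p : ℝ) / p) := by
                      rw [sq]; exact mul_le_mul_of_nonneg_right ht1 ht0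
                    linarith
                _ ≤ _ := h1
            have hpos : 0 < (1 - 1 / (p : ℝ)) ^ k := pow_pos (by linarith) k
            have hle1 : (1 - 1 / (p : ℝ)) ^ k ≤ 1 := pow_le_one₀ (by linarith) (by linarith)
            refine h2.trans ?_
            rw [le_div_iff₀ hpos]
            exact mul_le_of_le_one_right (by linarith) hle1
  have hB2 : ∏ p ∈ pr y X, (1 - (ν p : ℝ) / p) / (1 - 1 / (p : ℝ)) ^ k ≤ ((c₂ * K') / c₁) ^ k := by
    calc _ ≤ ∏ p ∈ pr y X, ((1 - 1 / (p : ℝ)) ^ k)⁻¹ := by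
          refine Finset.prod_le_prod (fun p hp => hnn p (hmem hp).1 (hzy.trans_lt (hmem hp).2.1)) (fun p hp => ?_)
          obtain ⟨hp0, ht0, ht1, hu0, hu1⟩ := hfac p (hmem hp).1 (hzy.trans_lt (hmem hp).2.1)
          have hpos : 0 < (1 - 1 / (p : ℝ)) ^ k := pow_pos (by linarith) k
          rw [div_eq_mul_inv]
          exact mul_le_of_le_one_left (by positivity) (by linarith)
      _ = (W ^ k)⁻¹ := by rw [Finset.prod_inv_distrib, hW, Finset.prod_pow]
      _ ≤ ((c₁ / (c₂ * K')) ^ k)⁻¹ := inv_anti₀ (by positivity) (pow_le_pow_left₀ (by positivity) hWlow _)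
      _ = _ := by rw [← inv_pow, inv_div]
  rw [three_split hzy hyX]
  have hAnn : 0 ≤ ∏ p ∈ pr z y, (1 - (ν p : ℝ) / p) / (1 - 1 / (p : ℝ)) ^ k :=
    (Real.exp_pos _).le.trans hA1
  have hBnn : 0 ≤ ∏ p ∈ pr y X, (1 - (ν p : ℝ) / p) / (1 - 1 / (p : ℝ)) ^ k :=
    le_trans (by positivity) hB1
  exact ⟨mul_le_mul hA1 hB1 (by positivity) hAnn, mul_le_mul hA2 hB2 hBnn (by positivity)⟩

end Pool.Agent.H90.SH
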