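import Pool.Agent.H90.SH.Ord
import Pool.Agent.H90.SH.Three

/-! # The law for large moduli, for almost all constant terms -/

set_option autoImplicit false

namespace Pool.Agent.H90.SH

open Finset Polynomial Filter Topology Pool.Agent.H90.SK
open Pool.Agent.H373R2.T7.SHN (AllPrime Q1 X1 omega sing NoFixedDivisor omega_lt expected sF sσ sA sF_deg sF_lc sσ_pm
  sing_ne_zero omega_eq full_main card_transfer prod_sA mem_box X1_eq XCount XCount_le)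
open Pool.Agent.Results.MP_0bf1d2_nt.EveryNLargeModuli (count relative count_mod rel)

variable {g : ℕ}

/-- the law -/
def LL (F : Fin g → ℤ[X]) (a : Fin g → ℕ) (G : ℤ[X]) (N z : ℕ) (δ ε : ℝ) : Prop :=
  ∀ K : ℕ, 1 ≤ K → (K : ℝ) ≤ δ * expected F a G N z →
    ∑ q ∈ Ico K (2 * K), ∑ b ∈ range q,
      (count (Sol F a G N) (X1 G N) q b - expected F a G N z * mm (omP (sy F a G N)) q b) ^ 2 ≤
        ε * expected F a G N z ^ 2

/-- the auxiliary level -/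
def yy8 (x : ℕ) : ℕ := Nat.sqrt (Nat.sqrt (Nat.sqrt x))

theorem yy8_le (x : ℕ) : yy8 x ^ 8 ≤ x := by
  unfold yy8
  have h1 := Nat.sqrt_le' x
  have h2 := Nat.sqrt_le' (Nat.sqrt x)
  have h3 := Nat.sqrt_le' (Nat.sqrt (Nat.sqrt x))
  calc Nat.sqrt (Nat.sqrt (Nat.sqrt x)) ^ 8 = ((Nat.sqrt (Nat.sqrt (Nat.sqrt x)) ^ 2) ^ 2) ^ 2 := by ring
    _ ≤ (Nat.sqrt (Nat.sqrt x) ^ 2) ^ 2 := Nat.pow_le_pow_left (Nat.pow_le_pow_left h3 2) 2
    _ ≤ Nat.sqrt x ^ 2 := Nat.pow_le_pow_left h2 2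
    _ ≤ x := h1

theorem yy8_lt (x : ℕ) : x < (yy8 x + 1) ^ 8 := by
  unfold yy8
  have h1 := Nat.lt_succ_sqrt' x
  have h2 := Nat.lt_succ_sqrt' (Nat.sqrt x)
  have h3 := Nat.lt_succ_sqrt' (Nat.sqrt (Nat.sqrt x))
  calc x < (Nat.sqrt x + 1) ^ 2 := h1
    _ ≤ ((Nat.sqrt (Nat.sqrt x) + 1) ^ 2) ^ 2 := Nat.pow_le_pow_left h2 2
    _ ≤ (((Nat.sqrt (Nat.sqrt (Nat.sqrt x)) + 1) ^ 2) ^ 2) ^ 2 := Nat.pow_le_pow_left (Nat.pow_le_pow_left h3 2) 2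
    _ = _ := by ring

/-- the sizes -/
theorem sizes (E Bc P : ℕ) (ρ K₀ : ℝ) (hρ : 0 < ρ) : ∃ x₁ : ℕ, ∀ x : ℕ, x₁ ≤ x →
    1 ≤ x ∧ Real.log x ^ E ≤ yy8 x ∧ Bc ≤ yy8 x ^ 4 ∧ (yy8 x : ℝ) ≤ ρ * x ∧ x ≤ yy8 x ^ 16 ∧ K₀ ≤ Real.log x ∧
      (P : ℝ) ≤ Real.log x := by
  have h0 : ∀ y : ℕ, ∀ x : ℕ, y ^ 8 ≤ x → y ≤ yy8 x := by
    intro y x h
    by_contra hcon
    have h1 := yy8_lt x
    have h2 : (yy8 x + 1) ^ 8 ≤ y ^ 8 := Nat.pow_le_pow_left (by omega) 8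
    omega
  have hL : Tendsto (fun N : ℕ => Real.log (N : ℝ)) atTop atTop := Real.tendsto_log_atTop.comp tendsto_natCast_atTop_atTop
  have h1 : ∀ᶠ x : ℝ in atTop, ‖Real.log x ^ (8 * E)‖ ≤ (1 / 2 ^ 8) * ‖id x‖ :=
    (Real.isLittleO_pow_log_id_atTop (n := 8 * E)).def (by positivity)
  have h1' : ∀ᶠ x : ℕ in atTop, Real.log x ^ E ≤ yy8 x := by
    filter_upwards [(tendsto_natCast_atTop_atTop (R := ℝ)).eventually h1, eventually_ge_atTop 1, hL.eventually_ge_atTop 1]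
      with x h2 h3 h4
    have hx0 : (0 : ℝ) < x := by exact_mod_cast h3
    rw [Real.norm_of_nonneg (by positivity), id, Real.norm_of_nonneg hx0.le] at h2
    by_contra hcon
    rw [not_le] at hcon
    have h5 : (x : ℝ) < ((yy8 x : ℝ) + 1) ^ 8 := by exact_mod_cast yy8_lt x
    have h6 : (yy8 x : ℝ) + 1 ≤ 2 * Real.log x ^ E := by
      have : 1 ≤ Real.log x ^ E := one_le_pow₀ h4
      linarith
    have h7 : ((yy8 x : ℝ) + 1) ^ 8 ≤ (2 * Real.log x ^ E) ^ 8 := pow_le_pow_left₀ (by positivity) h6 8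
    have h8 : (2 * Real.log x ^ E) ^ 8 = 2 ^ 8 * Real.log x ^ (8 * E) := by
      rw [mul_pow, ← pow_mul]
      congr 2
      ring
    rw [h8] at h7
    linarith
  have h2 : ∀ᶠ x : ℕ in atTop, Bc + 2 ≤ yy8 x := by
    filter_upwards [eventually_ge_atTop ((Bc + 2) ^ 8)] with x hx
    exact h0 _ _ hx
  have h3 : ∀ᶠ x : ℕ in atTop, 1 / ρ ≤ yy8 x := by
    filter_upwards [eventually_ge_atTop (⌈1 / ρ⌉₊ ^ 8)] with x hx
    exact (Nat.le_ceil _).trans (by exact_mod_cast h0 _ _ hx)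
  obtain ⟨x₁, hx₁⟩ := eventually_atTop.1 ((h1'.and h2).and ((h3.and (eventually_ge_atTop 1)).and
    ((hL.eventually_ge_atTop K₀).and (hL.eventually_ge_atTop (P : ℝ)))))
  refine ⟨x₁, fun x hx => ?_⟩
  obtain ⟨⟨a1, a2⟩, ⟨a3, a4⟩, a5, a6⟩ := hx₁ x hx
  have h8 := yy8_le x
  refine ⟨a4, a1, ?_, ?_, ?_, a5, a6⟩
  · have : yy8 x ≤ yy8 x ^ 4 := Nat.le_self_pow (by norm_num) _
    omega
  · -- `y ≤ ρ x` since `y² ≤ x` and `1 / ρ ≤ y`
    have h5 : (yy8 x : ℝ) ^ 2 ≤ x := by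
      have h6 : yy8 x ^ 2 ≤ yy8 x ^ 8 := Nat.pow_le_pow_right (by omega) (by norm_num)
      exact_mod_cast h6.trans h8
    have h6 : 1 ≤ ρ * yy8 x := by
      rw [div_le_iff₀ hρ] at a3
      linarith
    have h7 : (0 : ℝ) ≤ yy8 x := Nat.cast_nonneg _
    calc (yy8 x : ℝ) = 1 * yy8 x := by ring
      _ ≤ (ρ * yy8 x) * yy8 x := mul_le_mul_of_nonneg_right h6 h7
      _ = ρ * (yy8 x : ℝ) ^ 2 := by ring
      _ ≤ ρ * x := mul_le_mul_of_nonneg_left h5 hρ.le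
  · have h5 := yy8_lt x
    have h6 : (yy8 x + 1) ^ 8 ≤ (yy8 x ^ 2) ^ 8 := by
      apply Nat.pow_le_pow_left
      have : 2 ≤ yy8 x := by omega
      nlinarith
    have h7 : (yy8 x ^ 2) ^ 8 = yy8 x ^ 16 := by ring
    omega

/-- the law from the conditions -/
theorem law_of {F : Fin g → ℤ[X]} (hF : ∀ i, 1 ≤ (F i).natDegree) (hFl : ∀ i, 0 < (F i).leadingCoeff) {G : ℤ[X]}
    (hG : 1 ≤ G.natDegree) (hGl : 0 < G.leadingCoeff) {ρ ε : ℝ} (hρ : 0 < ρ) (hε : 0 < ε) :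
    ∃ (δ κ : ℝ) (P z₀ : ℕ), 0 < δ ∧ 0 < κ ∧ κ ≤ 1 ∧ 1 ≤ P ∧ ∀ E : ℕ, ∃ x₁ : ℕ, ∀ x : ℕ, x₁ ≤ x →
      ∀ (N : ℕ) (a : Fin g → ℕ) (z y : ℕ), z₀ ≤ z → P ≤ z → (z : ℝ) ≤ Real.log x ^ E → X1 G N ≤ x →
      ρ * x ≤ X1 G N → NoFixedDivisor F a G N → z ≤ y → y ≤ X1 G N → X1 G N ≤ y ^ 16 →
      Reg (sF F G) sσ z y (sA N a) →
      (∀ q b, 1 ≤ q → q ≤ P → b < q → Good F G (min (κ / 8) (ρ / (4 * P))) x z a N q b) → LL F a G N z δ ε := by
  classical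
  set D : ℕ := (∑ i, (F i).natDegree) + G.natDegree with hD
  have hD1 : 1 ≤ D := by omega
  obtain ⟨c₁, c₂, z₀, hc₁, hc₂, hz₀, hcmp⟩ := compare three hF hFl hG hGl
  obtain ⟨CV, hCV, hV⟩ := VQ_sum D hD1
  obtain ⟨P₀, x₀, δ₁, hP₀, hx₀, hδ₁, hrel⟩ := rel D hD1 (ε / (9 * c₂ ^ 2)) (by positivity)
  set K₀ : ℕ := ⌈9 * CV / ε⌉₊ + 1 with hK₀
  have hK₀1 : 1 ≤ K₀ := by omega
  have hK₀0 : (0 : ℝ) < K₀ := by exact_mod_cast hK₀1
  have hCK : CV / K₀ ≤ ε / 9 := by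
    rw [div_le_div_iff₀ hK₀0 (by norm_num)]
    have h1 : 9 * CV / ε ≤ K₀ := by
      rw [hK₀]
      push_cast
      linarith [Nat.le_ceil (9 * CV / ε)]
    rw [div_le_iff₀ hε] at h1
    linarith
  set P : ℕ := P₀ * K₀.factorial with hP
  have hP1 : 1 ≤ P := Nat.mul_pos hP₀ (Nat.factorial_pos _)
  have hP0 : (0 : ℝ) < P := by exact_mod_cast hP1
  have hKP : ∀ d, 1 ≤ d → d ≤ K₀ → d ∣ P := fun d hd1 hd2 => Dvd.dvd.mul_left (Nat.dvd_factorial hd1 hd2) _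
  have hP₀P : P₀ ∣ P := Dvd.intro _ rfl
  obtain ⟨κ, hκd⟩ : ∃ κ, κ = min 1 (√ε / (3 * (P : ℝ))) := ⟨_, rfl⟩
  have hκ0 : 0 < κ := by rw [hκd]; exact lt_min one_pos (by positivity)
  have hκ1 : κ ≤ 1 := by rw [hκd]; exact min_le_left _ _
  have hκ2 : κ ≤ √ε / (3 * (P : ℝ)) := by rw [hκd]; exact min_le_right _ _
  refine ⟨δ₁ * c₁, κ, P, z₀, by positivity, hκ0, hκ1, hP1, fun E => ?_⟩
  obtain ⟨x₂, hx₂⟩ := fixed hF hFl hG hGl hρ hκ0 hκ1 P hP1 E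
  obtain ⟨x₃, hx₃⟩ := R_large hF hFl hG hGl hρ E 1
  refine ⟨max (max x₂ x₃) ⌈(x₀ : ℝ) / ρ⌉₊, ?_⟩
  intro x hx N a z y hz hPz hzE hXx hρX hfix hzy hyX hXy hreg hgood K hK hKδ
  have hxa : x₂ ≤ x := ((le_max_left _ _).trans (le_max_left _ _)).trans hx
  have hxb : x₃ ≤ x := ((le_max_right _ _).trans (le_max_left _ _)).trans hx
  have hxc : ⌈(x₀ : ℝ) / ρ⌉₊ ≤ x := (le_max_right _ _).trans hx
  have hX0 : x₀ ≤ X1 G N := by
    have h1 : (x₀ : ℝ) / ρ ≤ x := (Nat.le_ceil _).trans (by exact_mod_cast hxc)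
    rw [div_le_iff₀ hρ] at h1
    have h2 : (x₀ : ℝ) ≤ X1 G N := by linarith
    exact_mod_cast h2
  have hfixed := hx₂ x hxa N a z hPz hzE hXx hρX hfix hgood
  have hRl := hx₃ x hxb N a z (hP1.trans hPz) hzE hXx hρX hfix
  obtain ⟨o1, o2⟩ := hcmp N a z y hz hzy hyX hXy hreg hfix
  obtain ⟨R, hR⟩ : ∃ R, R = expected F a G N z := ⟨_, rfl⟩
  obtain ⟨Ex, hEx⟩ : ∃ Ex, Ex = Pool.Agent.Results.MP_0bf1d2_nt.EveryNLargeModuli.expected (sy F a G N) (X1 G N) := ⟨_, rfl⟩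
  rw [← hR] at o1 o2 hKδ hfixed hRl ⊢
  rw [← hEx] at o1 o2
  have hRpos : 0 < R := by linarith
  have hEpos : 0 ≤ Ex := le_trans (by positivity) o1
  have hadm := adm_sy hF hG hfix
  have hdeg := deg_sy hF a hG N
  -- the relative law
  have hr := hrel _ (sy F a G N) hdeg.1 hdeg.2.le (nofix_sy hfix) (Sol F a G N) (Sol_sub F a G N) (X1 G N) hX0 P hP1
    hP₀P K hK (by
      rw [← hEx]
      calc (K : ℝ) ≤ δ₁ * c₁ * R := hKδ
        _ = δ₁ * (c₁ * R) := by ring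
        _ ≤ δ₁ * Ex := mul_le_mul_of_nonneg_left o1 hδ₁.le)
  rw [← hEx] at hr
  have hE2 : Ex ^ 2 ≤ (c₂ * R) ^ 2 := pow_le_pow_left₀ hEpos o2 2
  have hrelT : relT (count (Sol F a G N) (X1 G N)) P K = relative (Sol F a G N) (X1 G N) P K := rfl
  have hr3 : 3 * relT (count (Sol F a G N) (X1 G N)) P K ≤ ε / 3 * R ^ 2 := by
    rw [hrelT]
    calc 3 * relative (Sol F a G N) (X1 G N) P K ≤ 3 * (ε / (9 * c₂ ^ 2) * Ex ^ 2) := by linarith
      _ ≤ 3 * (ε / (9 * c₂ ^ 2) * (c₂ * R) ^ 2) := by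
          apply mul_le_mul_of_nonneg_left _ (by norm_num)
          exact mul_le_mul_of_nonneg_left hE2 (by positivity)
      _ = ε / 3 * R ^ 2 := by
          field_simp
          ring
  -- the error of the fixed classes
  have hη2 : 3 * ((P : ℝ) ^ 2 * (κ * R) ^ 2) ≤ ε / 3 * R ^ 2 := by
    have h1 : (κ * R) ^ 2 ≤ (√ε / (3 * (P : ℝ)) * R) ^ 2 :=
      pow_le_pow_left₀ (by positivity) (mul_le_mul_of_nonneg_right hκ2 hRpos.le) 2
    have h2 : 3 * ((P : ℝ) ^ 2 * (√ε / (3 * (P : ℝ)) * R) ^ 2) = ε / 3 * R ^ 2 := by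
      rw [mul_pow, div_pow, Real.sq_sqrt hε.le]
      field_simp
    calc 3 * ((P : ℝ) ^ 2 * (κ * R) ^ 2) ≤ 3 * ((P : ℝ) ^ 2 * (√ε / (3 * (P : ℝ)) * R) ^ 2) := by
          apply mul_le_mul_of_nonneg_left _ (by norm_num)
          exact mul_le_mul_of_nonneg_left h1 (by positivity)
      _ = _ := h2
  have hmain := explicit (Om := omP (sy F a G N)) (count (Sol F a G N) (X1 G N))
    (fun g a => count_mod _ _ g a) hP1 hK R (κ * R) (CV / K₀)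
    (hV _ hadm K₀ P K hK₀1 hKP hK) (fun q hq1 hqP b hb =>
      hfixed q b hq1 (Nat.le_of_dvd hP1 hqP) hb)
  have hlast : 3 * (R ^ 2 * (CV / K₀)) ≤ ε / 3 * R ^ 2 := by
    have := mul_le_mul_of_nonneg_left hCK (sq_nonneg R)
    linarith
  linarith

open Classical in
/-- **The law for almost all constant terms.** -/
theorem law (F : Fin g → ℤ[X]) (hF : ∀ i, 1 ≤ (F i).natDegree) (hFl : ∀ i, 0 < (F i).leadingCoeff) (G : ℤ[X])
    (hG : 1 ≤ G.natDegree) (hGl : 0 < G.leadingCoeff) (B : ℕ) (hB : 1 ≤ B) (ρ ε : ℝ) (hρ : 0 < ρ) (hε : 0 < ε) :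
    ∃ δ : ℝ, 0 < δ ∧ ∀ U : ℕ, ∃ B₀ : ℕ, ∀ E : ℕ, ∃ x₀ : ℕ, ∀ x : ℕ, x₀ ≤ x →
      ∀ M : ℕ, M ≤ B * x ^ G.natDegree → x ^ G.natDegree ≤ B * M → (∀ n : ℕ, x < n → (M : ℤ) ≤ G.eval (n : ℤ)) →
      ∀ A : Fin g → ℕ, (∀ i, A i ≤ B * x ^ (F i).natDegree ∧ x ^ (F i).natDegree ≤ B * A i) →
      ∀ z : ℕ, Real.log x ^ B₀ ≤ z → (z : ℝ) ≤ Real.log x ^ E →
      (((Icc 1 M ×ˢ Fintype.piFinset (fun i => Icc 1 (A i))).filter (fun q : ℕ × (Fin g → ℕ) =>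
        ¬ (NoFixedDivisor F q.2 G q.1 → ρ * x ≤ X1 G q.1 → LL F q.2 G q.1 z δ ε))).card : ℝ) ≤
        (M * ∏ i, (A i : ℝ)) / Real.log x ^ U := by
  obtain ⟨δ, κ, P, z₀, hδ, hκ0, hκ1, hP1, hlaw⟩ := law_of hF hFl hG hGl hρ hε
  have hP0 : (0 : ℝ) < P := by exact_mod_cast hP1
  obtain ⟨Cb, hCb, hbad⟩ := bad_box (sF F G) sσ (sF_deg F G hF hG) (sF_lc F G hFl hGl) sσ_pm
  refine ⟨δ, hδ, fun U => ?_⟩
  -- the theorem of the library in the classes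
  have hcls : ∀ q b : ℕ, ∃ B0 : ℕ, 1 ≤ q → ∀ E : ℕ, ∃ x0 : ℕ, ∀ x : ℕ, x0 ≤ x → ∀ M : ℕ, M ≤ B * x ^ G.natDegree →
      x ^ G.natDegree ≤ B * M → (∀ n : ℕ, x < n → (M : ℤ) ≤ G.eval (n : ℤ)) →
      ∀ A : Fin g → ℕ, (∀ i, A i ≤ B * x ^ (F i).natDegree ∧ x ^ (F i).natDegree ≤ B * A i) →
      ∀ z : ℕ, Real.log x ^ B0 ≤ z → (z : ℝ) ≤ Real.log x ^ E →
      (((Icc 1 M ×ˢ Fintype.piFinset (fun i => Icc 1 (A i))).filter (fun v : ℕ × (Fin g → ℕ) =>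
        ¬ Good F G (min (κ / 8) (ρ / (4 * P))) x z v.2 v.1 q b)).card : ℝ) ≤
        (M * ∏ i, (A i : ℝ)) / Real.log x ^ (U + 1) := by
    intro q b
    by_cases hq : 1 ≤ q
    · obtain ⟨B0, h0⟩ := full_main (fun i => cl (F i) q b) (fun i => by rw [cl_deg _ _ hq]; exact hF i)
        (fun i => cl_lc b hq (hFl i)) (cl G q b) (by rw [cl_deg _ _ hq]; exact hG) (cl_lc b hq hGl) B hB (U + 1)
        (min (κ / 8) (ρ / (4 * P))) (lt_min (by positivity) (by positivity))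
      simp only [cl_deg _ _ hq] at h0
      refine ⟨B0, fun _ E => ?_⟩
      obtain ⟨x0, h1⟩ := h0 E
      refine ⟨x0, fun x hx M hM1 hM2 hM3 A hA z hz1 hz2 => ?_⟩
      refine le_trans ?_ (h1 x hx M hM1 hM2 (fun n hn => ?_) A hA z hz1 hz2)
      · apply Nat.cast_le.2
        apply card_le_card
        intro v hv
        rw [mem_filter] at hv ⊢
        refine ⟨hv.1, fun h => hv.2 h.2⟩
      · rw [cl_eval]
        apply hM3
        nlinarith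
    · exact ⟨0, fun h => absurd h hq⟩
  choose B0 hB0 using hcls
  set BB : ℕ := ∑ q ∈ range (P + 1), ∑ b ∈ range (P + 1), B0 q b with hBB
  have hBB2 : ∀ q b, q ≤ P → b ≤ P → B0 q b ≤ BB := by
    intro q b hq hb
    calc B0 q b ≤ ∑ b ∈ range (P + 1), B0 q b :=
          single_le_sum (f := fun b => B0 q b) (fun _ _ => Nat.zero_le _) (mem_range.2 (by omega))
      _ ≤ BB := single_le_sum (f := fun q => ∑ b ∈ range (P + 1), B0 q b) (fun _ _ => Nat.zero_le _)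
          (mem_range.2 (by omega))
  refine ⟨BB + U + 1, fun E => ?_⟩
  obtain ⟨x₁, hx₁⟩ := hlaw E
  have hxq : ∀ q b : ℕ, ∃ x0 : ℕ, 1 ≤ q → ∀ x : ℕ, x0 ≤ x → ∀ M : ℕ, M ≤ B * x ^ G.natDegree →
      x ^ G.natDegree ≤ B * M → (∀ n : ℕ, x < n → (M : ℤ) ≤ G.eval (n : ℤ)) →
      ∀ A : Fin g → ℕ, (∀ i, A i ≤ B * x ^ (F i).natDegree ∧ x ^ (F i).natDegree ≤ B * A i) →
      ∀ z : ℕ, Real.log x ^ B0 q b ≤ z → (z : ℝ) ≤ Real.log x ^ E →
      (((Icc 1 M ×ˢ Fintype.piFinset (fun i => Icc 1 (A i))).filter (fun v : ℕ × (Fin g → ℕ) =>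
        ¬ Good F G (min (κ / 8) (ρ / (4 * P))) x z v.2 v.1 q b)).card : ℝ) ≤
        (M * ∏ i, (A i : ℝ)) / Real.log x ^ (U + 1) := by
    intro q b
    by_cases hq : 1 ≤ q
    · obtain ⟨x0, h0⟩ := hB0 q b hq E
      exact ⟨x0, fun _ => h0⟩
    · exact ⟨0, fun h => absurd h hq⟩
  choose x0 hx0 using hxq
  set XX : ℕ := ∑ q ∈ range (P + 1), ∑ b ∈ range (P + 1), x0 q b with hXX
  have hXX2 : ∀ q b, q ≤ P → b ≤ P → x0 q b ≤ XX := by
    intro q b hq hb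
    calc x0 q b ≤ ∑ b ∈ range (P + 1), x0 q b :=
          single_le_sum (f := fun b => x0 q b) (fun _ _ => Nat.zero_le _) (mem_range.2 (by omega))
      _ ≤ XX := single_le_sum (f := fun q => ∑ b ∈ range (P + 1), x0 q b) (fun _ _ => Nat.zero_le _)
          (mem_range.2 (by omega))
  obtain ⟨x₂, hx₂⟩ := sizes E B (P + z₀) ρ (((P : ℝ) + 1) ^ 2 + Cb + 1) hρ
  refine ⟨max (max x₁ XX) x₂, fun x hx M hM1 hM2 hM3 A hA z hz1 hz2 => ?_⟩
  have hxa : x₁ ≤ x := ((le_max_left _ _).trans (le_max_left _ _)).trans hx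
  have hxb : XX ≤ x := ((le_max_right _ _).trans (le_max_left _ _)).trans hx
  have hxc : x₂ ≤ x := (le_max_right _ _).trans hx
  obtain ⟨s1, s2, s3, s4, s5, s6, s7⟩ := hx₂ x hxc
  have hx0' : (0 : ℝ) < x := by exact_mod_cast s1
  have hlog1 : 1 ≤ Real.log x := by
    have : 0 ≤ ((P : ℝ) + 1) ^ 2 := by positivity
    linarith
  set y : ℕ := yy8 x with hy
  -- the size of `z`
  have hzlow : ∀ j, j ≤ BB + U + 1 → Real.log x ^ j ≤ z := by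
    intro j hj
    exact (pow_le_pow_right₀ hlog1 hj).trans hz1
  have hz3 : Real.log x ≤ z := by
    have := hzlow 1 (by omega)
    rwa [pow_one] at this
  have hzP : P + z₀ ≤ z := by
    have : ((P + z₀ : ℕ) : ℝ) ≤ z := s7.trans hz3
    exact_mod_cast this
  have hz1' : 1 ≤ z := by omega
  have hz0 : (0 : ℝ) < z := by exact_mod_cast hz1'
  have hzy : z ≤ y := by
    have : (z : ℝ) ≤ y := hz2.trans s2
    exact_mod_cast this
  have hy1 : 1 ≤ y := hz1'.trans hzy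
  -- the box
  have hHM : ∀ i, y ^ 4 ≤ sA M A i := by
    have key : ∀ d H : ℕ, 1 ≤ d → x ^ d ≤ B * H → y ^ 4 ≤ H := by
      intro d H hd h
      have h1 : x ≤ x ^ d := Nat.le_self_pow (by omega) x
      have h2 := yy8_le x
      rw [← hy] at h2
      have h3 : y ^ 4 * B ≤ y ^ 4 * y ^ 4 := Nat.mul_le_mul_left _ s3
      have h4 : y ^ 4 * y ^ 4 = y ^ 8 := by ring
      have h5 : B * y ^ 4 ≤ B * H := by
        have : B * y ^ 4 = y ^ 4 * B := by ring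
        omega
      exact Nat.le_of_mul_le_mul_left h5 (by omega)
    intro i
    refine Fin.cases ?_ (fun j => ?_) i
    · simpa [sA] using key _ M hG hM2
    · simpa [sA] using key _ (A j) (hF j) (hA j).2
  have hbox := hbad z y (sA M A) hz1' hzy hHM
  rw [prod_sA] at hbox
  obtain ⟨T, hT⟩ : ∃ T, T = (M : ℝ) * ∏ i, (A i : ℝ) := ⟨_, rfl⟩
  have hT0 : 0 ≤ T := by
    rw [hT]
    exact mul_nonneg (Nat.cast_nonneg _) (prod_nonneg fun _ _ => Nat.cast_nonneg _)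
  rw [← hT] at hbox ⊢
  set Bx := Icc 1 M ×ˢ Fintype.piFinset (fun i => Icc 1 (A i)) with hBx
  set S0 : Finset (ℕ × (Fin g → ℕ)) := Bx.filter (fun v => ¬ Reg (sF F G) sσ z y (sA v.1 v.2)) with hS0
  set S1 : ℕ → ℕ → Finset (ℕ × (Fin g → ℕ)) := fun q b => Bx.filter (fun v : ℕ × (Fin g → ℕ) =>
        ¬ Good F G (min (κ / 8) (ρ / (4 * P))) x z v.2 v.1 q b) with hS1
  have hS0c : (S0.card : ℝ) ≤ Cb * T / z := by
    refine le_trans ?_ hbox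
    apply Nat.cast_le.2
    apply card_transfer
    intro v hv hreg
    rw [mem_filter]
    exact ⟨mem_box M A v hv, hreg⟩
  have hS1c : ∀ q ∈ Icc 1 P, ∀ b ∈ range q, ((S1 q b).card : ℝ) ≤ T / Real.log x ^ (U + 1) := by
    intro q hq b hb
    rw [mem_Icc] at hq
    rw [mem_range] at hb
    have h1 := hx0 q b hq.1 x ((hXX2 q b hq.2 (by omega)).trans hxb) M hM1 hM2 hM3 A hA z
      (hzlow _ (by have := hBB2 q b hq.2 (by omega); omega)) hz2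
    rw [← hT] at h1
    exact h1
  have hsub : Bx.filter (fun v : ℕ × (Fin g → ℕ) =>
        ¬ (NoFixedDivisor F v.2 G v.1 → ρ * x ≤ X1 G v.1 → LL F v.2 G v.1 z δ ε)) ⊆
      S0 ∪ (Icc 1 P).biUnion (fun q => (range q).biUnion (fun b => S1 q b)) := by
    intro v hv
    rw [mem_filter] at hv
    obtain ⟨hv1, hv2⟩ := hv
    push Not at hv2
    obtain ⟨hfix, hρX, hnot⟩ := hv2
    by_contra hcon
    rw [mem_union, not_or] at hcon
    obtain ⟨h1, h2⟩ := hcon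
    apply hnot
    have hN : v.1 ≤ M := (mem_Icc.1 (mem_product.1 hv1).1).2
    have hXx : X1 G v.1 ≤ x := by
      rw [X1_eq G v.1 x (fun n hn => le_trans (by exact_mod_cast hN) (hM3 n hn))]
      exact XCount_le G v.1 x
    have hreg : Reg (sF F G) sσ z y (sA v.1 v.2) := by
      by_contra h
      exact h1 (mem_filter.2 ⟨hv1, h⟩)
    have hgood : ∀ q b, 1 ≤ q → q ≤ P → b < q → Good F G (min (κ / 8) (ρ / (4 * P))) x z v.2 v.1 q b := by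
      intro q b hq hqP hb
      by_contra h
      apply h2
      rw [mem_biUnion]
      refine ⟨q, mem_Icc.2 ⟨hq, hqP⟩, ?_⟩
      rw [mem_biUnion]
      exact ⟨b, mem_range.2 hb, mem_filter.2 ⟨hv1, h⟩⟩
    have hyX : y ≤ X1 G v.1 := by
      have : (y : ℝ) ≤ X1 G v.1 := s4.trans hρX
      exact_mod_cast this
    exact hx₁ x hxa v.1 v.2 z y (by omega) (by omega) hz2 hXx hρX hfix hzy hyX (hXx.trans s5) hreg hgood
  have hcard : ((Bx.filter (fun v : ℕ × (Fin g → ℕ) =>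
        ¬ (NoFixedDivisor F v.2 G v.1 → ρ * x ≤ X1 G v.1 → LL F v.2 G v.1 z δ ε))).card : ℝ) ≤
      S0.card + ∑ q ∈ Icc 1 P, ∑ b ∈ range q, ((S1 q b).card : ℝ) := by
    have h1 := (card_le_card hsub).trans (card_union_le _ _)
    have h2 : ((Icc 1 P).biUnion (fun q => (range q).biUnion (fun b => S1 q b))).card ≤
        ∑ q ∈ Icc 1 P, ∑ b ∈ range q, (S1 q b).card :=
      card_biUnion_le.trans (sum_le_sum fun q _ => card_biUnion_le)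
    exact_mod_cast h1.trans (Nat.add_le_add_left h2 _)
  have hLU : 0 < Real.log x ^ (U + 1) := by positivity
  have hsum : ∑ q ∈ Icc 1 P, ∑ b ∈ range q, ((S1 q b).card : ℝ) ≤ ((P : ℝ) + 1) ^ 2 * (T / Real.log x ^ (U + 1)) := by
    calc ∑ q ∈ Icc 1 P, ∑ b ∈ range q, ((S1 q b).card : ℝ) ≤
          ∑ q ∈ Icc 1 P, ∑ _b ∈ range q, T / Real.log x ^ (U + 1) :=
          sum_le_sum fun q hq => sum_le_sum fun b hb => hS1c q hq b hb
      _ ≤ ∑ _q ∈ Icc 1 P, ((P : ℝ) + 1) * (T / Real.log x ^ (U + 1)) := by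
          apply sum_le_sum
          intro q hq
          rw [sum_const, card_range, nsmul_eq_mul]
          apply mul_le_mul_of_nonneg_right _ (by positivity)
          have : (q : ℝ) ≤ P := by exact_mod_cast (mem_Icc.1 hq).2
          linarith
      _ = P * (((P : ℝ) + 1) * (T / Real.log x ^ (U + 1))) := by
          rw [sum_const, Nat.card_Icc, nsmul_eq_mul, Nat.add_sub_cancel]
      _ ≤ _ := by
          have h1 : 0 ≤ T / Real.log x ^ (U + 1) := by positivity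
          have h2 : (P : ℝ) * (((P : ℝ) + 1) * (T / Real.log x ^ (U + 1))) =
              (P * ((P : ℝ) + 1)) * (T / Real.log x ^ (U + 1)) := by ring
          rw [h2]
          apply mul_le_mul_of_nonneg_right _ h1
          nlinarith
  have hS0' : (S0.card : ℝ) ≤ Cb * (T / Real.log x ^ (U + 1)) := by
    refine hS0c.trans ?_
    rw [mul_div_assoc]
    apply mul_le_mul_of_nonneg_left _ hCb.le
    exact div_le_div_of_nonneg_left hT0 hLU (hzlow (U + 1) (by omega))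
  refine hcard.trans ?_
  have hfin : (((P : ℝ) + 1) ^ 2 + Cb) * (T / Real.log x ^ (U + 1)) ≤ T / Real.log x ^ U := by
    have hlx : 0 < Real.log (x : ℝ) := by linarith
    have h1 : 0 ≤ T / Real.log x ^ U := by positivity
    rw [pow_succ (Real.log (x : ℝ)) U, ← div_div, mul_div_assoc', div_le_iff₀ hlx]
    rw [mul_comm]
    apply mul_le_mul_of_nonneg_left _ h1
    linarith
  linarith

end Pool.Agent.H90.SH
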