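import Pool.Agent.H90.SH.Stm

/-! # Project SH (helper90), module One (one variable, second moment) -/

set_option autoImplicit false
set_option linter.style.haveILetI false

namespace Pool.Agent.H90.SH

open Finset Polynomial

theorem one_sum_inv_sq (z : ℕ) (y : ℕ) : ∑ n ∈ Ioc z y, (1 / (n : ℝ) ^ 2) ≤ 1 / (z:ℝ) ∨ z = 0 := by
  rcases Nat.eq_zero_or_pos z with hz | hz
  · exact Or.inr hz
  left
  rcases le_total y z with h | h
  · rw [Finset.Ioc_eq_empty (by omega)]; simp
  · have key : ∀ m, z ≤ m → ∑ n ∈ Ioc z m, (1 / (n : ℝ) ^ 2) ≤ 1 / (z:ℝ) - 1 / (m:ℝ) := by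
      intro m hm
      induction m, hm using Nat.le_induction with
      | base => simp
      | succ m hm ih =>
        rw [Finset.sum_Ioc_succ_top (by omega)]
        have hm0 : (0:ℝ) < m := by exact_mod_cast (by omega : 0 < m)
        have : 1 / ((m+1 : ℕ) : ℝ)^2 ≤ 1 / m - 1 / ((m + 1 : ℕ) : ℝ) := by
          push_cast
          rw [div_sub_div _ _ hm0.ne' (by positivity), div_le_div_iff₀ (by positivity) (by positivity)]
          nlinarith
        linarith
    have := key y h
    have hy : (0:ℝ) ≤ 1 / y := by positivity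
    linarith

/-- `rho` as a function on `ZMod p` -/
noncomputable def oneG (f : ℤ[X]) (s : ℤ) (p : ℕ) [NeZero p] (x : ZMod p) : ℝ :=
  1 - ((univ.filter (fun r : ZMod p => x + s * (f.map (Int.castRingHom (ZMod p))).eval r = 0)).card : ℝ)

theorem one_rho_eq (f : ℤ[X]) (s : ℤ) (a p : ℕ) [NeZero p] :
    rho f s a p = (univ.filter (fun r : ZMod p => (a : ZMod p) + s * (f.map (Int.castRingHom (ZMod p))).eval r = 0)).card := by
  have key : ∀ r : ℤ, ((p : ℤ) ∣ (a : ℤ) + s * f.eval r ↔
      (a : ZMod p) + s * (f.map (Int.castRingHom (ZMod p))).eval (r : ZMod p) = 0) := by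
    intro r
    rw [← ZMod.intCast_zmod_eq_zero_iff_dvd]
    push_cast
    rw [Polynomial.eval_intCast_map]
    simp
  refine Finset.card_nbij' (fun r : ℕ => (r : ZMod p)) (fun x => x.val) ?_ ?_ ?_ ?_
  · intro r hr
    simp only [Finset.coe_filter, Finset.mem_range, Set.mem_ofPred_eq] at hr
    simp only [Finset.coe_filter, Finset.mem_univ, true_and, Set.mem_ofPred_eq]
    have := (key (r : ℤ)).mp hr.2
    simpa using this
  · intro x hx
    simp only [Finset.coe_filter, Finset.mem_univ, true_and, Set.mem_ofPred_eq] at hx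
    simp only [Finset.coe_filter, Finset.mem_range, Set.mem_ofPred_eq]
    refine ⟨ZMod.val_lt x, ?_⟩
    apply (key ((x.val : ℕ) : ℤ)).mpr
    simpa using hx
  · intro r hr
    simp only [Finset.coe_filter, Finset.mem_range, Set.mem_ofPred_eq] at hr
    exact ZMod.val_cast_of_lt hr.1
  · intro x _
    exact ZMod.natCast_zmod_val x

theorem one_g_eq (f : ℤ[X]) (s : ℤ) (a p : ℕ) [NeZero p] : 1 - (rho f s a p : ℝ) = oneG f s p (a : ZMod p) := by
  rw [oneG, one_rho_eq]

theorem one_sum_G (f : ℤ[X]) (s : ℤ) (p : ℕ) [NeZero p] : ∑ x : ZMod p, oneG f s p x = 0 := by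
  unfold oneG
  rw [Finset.sum_sub_distrib]
  have h : ∑ x : ZMod p, (univ.filter (fun r : ZMod p => x + s * (f.map (Int.castRingHom (ZMod p))).eval r = 0)).card = p := by
    simp only [Finset.card_filter]
    rw [Finset.sum_comm]
    have : ∀ r : ZMod p, ∑ x : ZMod p, (if x + s * (f.map (Int.castRingHom (ZMod p))).eval r = 0 then 1 else 0) = 1 := by
      intro r
      rw [Finset.sum_eq_single (-(s * (f.map (Int.castRingHom (ZMod p))).eval r))]
      · simp
      · intro b _ hb
        rw [if_neg]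
        intro h
        exact hb (eq_neg_of_add_eq_zero_left h)
      · simp
    rw [Finset.sum_congr rfl (fun r _ => this r)]
    simp [ZMod.card]
  rw [← Nat.cast_sum, h]
  simp [ZMod.card]

theorem one_abs_G_le (f : ℤ[X]) (s : ℤ) (hs : s = 1 ∨ s = -1) (hf : 1 ≤ f.natDegree) (p : ℕ) [hp : Fact p.Prime] (x : ZMod p) :
    |oneG f s p x| ≤ 1 + f.natDegree + |(f.leadingCoeff : ℝ)| := by
  have hb : ((univ.filter (fun r : ZMod p => x + s * (f.map (Int.castRingHom (ZMod p))).eval r = 0)).card : ℝ) ≤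
      f.natDegree + |(f.leadingCoeff : ℝ)| := by
    by_cases hd : (p : ℤ) ∣ f.leadingCoeff
    · have h1 : (univ.filter (fun r : ZMod p => x + s * (f.map (Int.castRingHom (ZMod p))).eval r = 0)).card ≤ p := by
        refine (Finset.card_le_univ _).trans ?_
        rw [ZMod.card]
      have hl : f.leadingCoeff ≠ 0 := by
        intro h
        rw [Polynomial.leadingCoeff_eq_zero] at h
        rw [h] at hf
        simp at hf
      have h2 : (p : ℤ) ≤ |f.leadingCoeff| := Int.le_of_dvd (abs_pos.mpr hl) ((dvd_abs _ _).mpr hd)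
      have h3 : (p : ℝ) ≤ |(f.leadingCoeff : ℝ)| := by exact_mod_cast h2
      have h4 : ((univ.filter (fun r : ZMod p => x + s * (f.map (Int.castRingHom (ZMod p))).eval r = 0)).card : ℝ) ≤ p := by
        exact_mod_cast h1
      have : (0:ℝ) ≤ f.natDegree := by positivity
      linarith
    · set g : (ZMod p)[X] := C x + C (s : ZMod p) * f.map (Int.castRingHom (ZMod p)) with hg
      have hs0 : (s : ZMod p) ≠ 0 := by
        rcases hs with rfl | rfl <;> simp
      have hlc : (Int.castRingHom (ZMod p)) f.leadingCoeff ≠ 0 := by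
        intro h
        apply hd
        rw [← ZMod.intCast_zmod_eq_zero_iff_dvd]
        simpa using h
      have hnd : (f.map (Int.castRingHom (ZMod p))).natDegree = f.natDegree :=
        Polynomial.natDegree_map_of_leadingCoeff_ne_zero _ hlc
      have hgd : g.natDegree = f.natDegree := by
        rw [hg, Polynomial.natDegree_C_add, Polynomial.natDegree_C_mul hs0, hnd]
      have hg0 : g ≠ 0 := by
        intro h
        rw [h] at hgd
        simp at hgd
        omega
      have h1 : (univ.filter (fun r : ZMod p => x + s * (f.map (Int.castRingHom (ZMod p))).eval r = 0)) ⊆ g.roots.toFinset := by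
        intro r hr
        rw [Finset.mem_filter] at hr
        rw [Multiset.mem_toFinset, Polynomial.mem_roots hg0, Polynomial.IsRoot.def, hg]
        simpa using hr.2
      have h2 : (univ.filter (fun r : ZMod p => x + s * (f.map (Int.castRingHom (ZMod p))).eval r = 0)).card ≤ f.natDegree := by
        calc _ ≤ g.roots.toFinset.card := Finset.card_le_card h1
          _ ≤ Multiset.card g.roots := Multiset.toFinset_card_le _
          _ ≤ g.natDegree := Polynomial.card_roots' g
          _ = _ := hgd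
      have h3 : ((univ.filter (fun r : ZMod p => x + s * (f.map (Int.castRingHom (ZMod p))).eval r = 0)).card : ℝ) ≤ f.natDegree := by
        exact_mod_cast h2
      have : (0:ℝ) ≤ |(f.leadingCoeff : ℝ)| := abs_nonneg _
      linarith
  have h0 : (0:ℝ) ≤ ((univ.filter (fun r : ZMod p => x + s * (f.map (Int.castRingHom (ZMod p))).eval r = 0)).card : ℝ) := by positivity
  have h5 : (0:ℝ) ≤ f.natDegree + |(f.leadingCoeff : ℝ)| := by positivity
  unfold oneG
  rw [abs_le]
  constructor <;> linarith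

/-- sums of a mean zero function on `ZMod m` over an interval -/
theorem one_sum_interval (m : ℕ) [NeZero m] (h : ZMod m → ℝ) (h0 : ∑ x, h x = 0) (B : ℝ) (hB : ∀ x, |h x| ≤ B) (H : ℕ) :
    |∑ a ∈ Icc 1 H, h (a : ZMod m)| ≤ m * B := by
  have hper : ∀ b : ZMod m, ∑ a ∈ range m, h ((a : ZMod m) + b) = 0 := by
    intro b
    rw [← h0, ← Equiv.sum_comp (Equiv.addRight b) h]
    refine Finset.sum_nbij' (fun a : ℕ => (a : ZMod m)) (fun x => x.val) ?_ ?_ ?_ ?_ ?_
    · simp
    · intro x _; simp [ZMod.val_lt]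
    · intro a ha; exact ZMod.val_cast_of_lt (Finset.mem_range.mp ha)
    · intro x _; exact ZMod.natCast_zmod_val x
    · intro a _; simp
  have hblock : ∀ q : ℕ, ∑ a ∈ range (m * q), h ((a : ZMod m) + 1) = 0 := by
    intro q
    induction q with
    | zero => simp
    | succ q ih =>
      rw [Nat.mul_succ, Finset.sum_range_add, ih, zero_add]
      rw [← hper 1]
      refine Finset.sum_congr rfl (fun a _ => ?_)
      simp
  have e1 : ∑ a ∈ Icc 1 H, h (a : ZMod m) = ∑ a ∈ range H, h ((a : ZMod m) + 1) := by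
    have : Icc 1 H = (range H).map ⟨Nat.succ, Nat.succ_injective⟩ := by
      ext a
      simp only [Finset.mem_Icc, Finset.mem_map, Finset.mem_range, Function.Embedding.coeFn_mk]
      constructor
      · rintro ⟨h1, h2⟩; exact ⟨a - 1, by omega, by omega⟩
      · rintro ⟨b, hb, rfl⟩; omega
    rw [this, Finset.sum_map]
    refine Finset.sum_congr rfl (fun a _ => ?_)
    simp
  rw [e1]
  conv_lhs => rw [← Nat.div_add_mod H m]
  rw [Finset.sum_range_add, hblock, zero_add]
  have hB0 : 0 ≤ B := (abs_nonneg _).trans (hB 0)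
  calc |∑ x ∈ range (H % m), h (((m * (H / m) + x : ℕ) : ZMod m) + 1)|
      ≤ ∑ x ∈ range (H % m), |h (((m * (H / m) + x : ℕ) : ZMod m) + 1)| := Finset.abs_sum_le_sum_abs _ _
    _ ≤ ∑ x ∈ range (H % m), B := Finset.sum_le_sum (fun x _ => hB _)
    _ = (H % m : ℕ) * B := by simp
    _ ≤ m * B := by
        refine mul_le_mul_of_nonneg_right ?_ hB0
        exact_mod_cast (Nat.mod_lt H (Nat.pos_of_ne_zero (NeZero.ne m))).le

theorem one_cross (p q : ℕ) [Fact p.Prime] [Fact q.Prime] (hpq : p ≠ q) (u : ZMod p → ℝ) (v : ZMod q → ℝ)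
    (hu : ∑ x, u x = 0) (c : ℝ) (hc : ∀ x, |u x| ≤ c) (hc' : ∀ x, |v x| ≤ c) (H : ℕ) :
    |∑ a ∈ Icc 1 H, u (a : ZMod p) * v (a : ZMod q)| ≤ (p * q) * c ^ 2 := by
  have hcop : Nat.Coprime p q := (Nat.coprime_primes Fact.out Fact.out).mpr hpq
  haveI : NeZero (p * q) := ⟨mul_ne_zero (NeZero.ne p) (NeZero.ne q)⟩
  let E := ZMod.chineseRemainder hcop
  let h : ZMod (p * q) → ℝ := fun x => u (E x).1 * v (E x).2
  have hc0 : 0 ≤ c := (abs_nonneg _).trans (hc 0)
  have h0 : ∑ x, h x = 0 := by
    have : ∑ x, h x = ∑ y : ZMod p × ZMod q, u y.1 * v y.2 := E.toEquiv.sum_comp (fun y => u y.1 * v y.2)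
    rw [this, Fintype.sum_prod_type]
    simp only [← Finset.mul_sum]
    rw [← Finset.sum_mul, hu, zero_mul]
  have hB : ∀ x, |h x| ≤ c ^ 2 := by
    intro x
    simp only [h]
    rw [abs_mul, sq]
    exact mul_le_mul (hc _) (hc' _) (abs_nonneg _) hc0
  have := one_sum_interval (p * q) h h0 (c^2) hB H
  have e : ∀ a : ℕ, h (a : ZMod (p * q)) = u (a : ZMod p) * v (a : ZMod q) := by
    intro a
    simp only [h]
    rw [show E (a : ZMod (p*q)) = ((a : ZMod p × ZMod q)) from map_natCast E a]
    simp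
  simp only [e] at this
  push_cast at this
  exact this

open Classical in
theorem one : StmOne := by
  intro f s hs hf hlc
  set c : ℝ := 1 + f.natDegree + |(f.leadingCoeff : ℝ)| with hcdef
  have hc1 : 1 ≤ c := by
    have h1 : (0:ℝ) ≤ f.natDegree := by positivity
    have h2 : (0:ℝ) ≤ |(f.leadingCoeff : ℝ)| := abs_nonneg _
    linarith
  refine ⟨2 * c ^ 2, by positivity, ?_⟩
  intro z y H hz hzy hyH
  have hz0 : (0:ℝ) < z := by exact_mod_cast hz
  set g : ℕ → ℕ → ℝ := fun p a => 1 - (rho f s a p : ℝ) with hg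
  set T : ℕ → ℝ := fun a => ∑ p ∈ pr z y, g p a / p with hT
  have hprime : ∀ p ∈ pr z y, p.Prime ∧ z < p ∧ p ≤ y := by
    intro p hp
    simp only [pr, Finset.mem_filter, Finset.mem_Ioc] at hp
    exact ⟨hp.2, hp.1.1, hp.1.2⟩
  have hgb : ∀ p ∈ pr z y, ∀ a, |g p a| ≤ c := by
    intro p hp a
    haveI : Fact p.Prime := ⟨(hprime p hp).1⟩
    simp only [hg]
    rw [one_g_eq]
    exact one_abs_G_le f s hs hf p _
  have hcross : ∀ p ∈ pr z y, ∀ q ∈ pr z y, p ≠ q → |∑ a ∈ Icc 1 H, g p a * g q a| ≤ (p * q) * c ^ 2 := by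
    intro p hp q hq hpq
    haveI : Fact p.Prime := ⟨(hprime p hp).1⟩
    haveI : Fact q.Prime := ⟨(hprime q hq).1⟩
    simp only [hg, one_g_eq]
    exact one_cross p q hpq (oneG f s p) (oneG f s q) (one_sum_G f s p) c (one_abs_G_le f s hs hf p) (one_abs_G_le f s hs hf q) H
  have hdiag : ∀ p ∈ pr z y, ∑ a ∈ Icc 1 H, g p a * g p a ≤ H * c ^ 2 := by
    intro p hp
    calc ∑ a ∈ Icc 1 H, g p a * g p a ≤ ∑ a ∈ Icc 1 H, c ^ 2 := by
          refine Finset.sum_le_sum (fun a _ => ?_)
          rw [← abs_mul_abs_self, ← sq]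
          exact pow_le_pow_left₀ (abs_nonneg _) (hgb p hp a) 2
      _ = H * c ^ 2 := by simp
  -- the second moment
  have hexp : ∑ a ∈ Icc 1 H, T a ^ 2 = ∑ p ∈ pr z y, ∑ q ∈ pr z y, (∑ a ∈ Icc 1 H, g p a * g q a) / (p * q) := by
    have : ∀ a, T a ^ 2 = ∑ p ∈ pr z y, ∑ q ∈ pr z y, (g p a * g q a) / (p * q) := by
      intro a
      rw [sq]
      simp only [hT]
      rw [Finset.sum_mul_sum]
      refine Finset.sum_congr rfl (fun p _ => Finset.sum_congr rfl (fun q _ => ?_))
      rw [div_mul_div_comm]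
    simp only [this]
    rw [Finset.sum_comm]
    refine Finset.sum_congr rfl (fun p _ => ?_)
    rw [Finset.sum_comm]
    refine Finset.sum_congr rfl (fun q _ => ?_)
    rw [Finset.sum_div]
  have hterm : ∀ p ∈ pr z y, ∀ q ∈ pr z y, (∑ a ∈ Icc 1 H, g p a * g q a) / (p * q) ≤
      c ^ 2 + (if p = q then H * c ^ 2 * (1 / (p:ℝ)^2) else 0) := by
    intro p hp q hq
    have hp0 : (0:ℝ) < p := by exact_mod_cast (hprime p hp).1.pos
    have hq0 : (0:ℝ) < q := by exact_mod_cast (hprime q hq).1.pos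
    by_cases hpq : p = q
    · subst hpq
      rw [if_pos rfl]
      have h1 := hdiag p hp
      have h2 : (∑ a ∈ Icc 1 H, g p a * g p a) / (p * p) ≤ H * c ^ 2 * (1 / (p:ℝ)^2) := by
        rw [div_le_iff₀ (by positivity)]
        refine h1.trans (le_of_eq ?_)
        field_simp
      have : 0 ≤ c ^ 2 := by positivity
      linarith
    · rw [if_neg hpq, add_zero, div_le_iff₀ (by positivity)]
      refine (le_abs_self _).trans ((hcross p hp q hq hpq).trans (le_of_eq ?_))
      ring
  have hcard : ((pr z y).card : ℝ) ≤ y := by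
    have : (pr z y).card ≤ y := by
      refine (Finset.card_filter_le _ _).trans ?_
      rw [Nat.card_Ioc]; omega
    exact_mod_cast this
  have hsum : ∑ a ∈ Icc 1 H, T a ^ 2 ≤ 2 * c ^ 2 * H / z := by
    rw [hexp]
    calc _ ≤ ∑ p ∈ pr z y, ∑ q ∈ pr z y, (c ^ 2 + (if p = q then H * c ^ 2 * (1 / (p:ℝ)^2) else 0)) :=
          Finset.sum_le_sum (fun p hp => Finset.sum_le_sum (fun q hq => hterm p hp q hq))
      _ = (pr z y).card * ((pr z y).card * c ^ 2) + ∑ p ∈ pr z y, H * c ^ 2 * (1 / (p:ℝ)^2) := by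
          simp only [Finset.sum_add_distrib, Finset.sum_const, nsmul_eq_mul]
          congr 1
          refine Finset.sum_congr rfl (fun p hp => ?_)
          rw [Finset.sum_ite_eq, if_pos hp]
      _ ≤ y * (y * c ^ 2) + H * c ^ 2 * (1 / z) := by
          refine add_le_add ?_ ?_
          · refine mul_le_mul hcard (mul_le_mul_of_nonneg_right hcard (by positivity)) (by positivity) (by positivity)
          · rw [← Finset.mul_sum]
            refine mul_le_mul_of_nonneg_left ?_ (by positivity)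
            rcases one_sum_inv_sq z y with h | h
            · refine le_trans ?_ h
              exact Finset.sum_le_sum_of_subset_of_nonneg (Finset.filter_subset _ _) (fun n _ _ => by positivity)
            · omega
      _ ≤ 2 * c ^ 2 * H / z := by
          have h1 : (z : ℝ) * y ^ 2 ≤ H := by
            have hy1 : (1:ℝ) ≤ y := by exact_mod_cast hz.trans hzy
            have h2 : (z : ℝ) ≤ y := by exact_mod_cast hzy
            have h3 : (y : ℝ) ^ 4 ≤ H := by exact_mod_cast hyH
            calc (z : ℝ) * y ^ 2 ≤ y * y ^ 2 := mul_le_mul_of_nonneg_right h2 (by positivity)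
              _ ≤ y * y ^ 2 * y := le_mul_of_one_le_right (by positivity) hy1
              _ = y ^ 4 := by ring
              _ ≤ H := h3
          have h4 : (y:ℝ) * (y * c ^ 2) ≤ H * c ^ 2 * (1 / z) := by
            rw [mul_one_div, le_div_iff₀ hz0]
            calc (y:ℝ) * (y * c ^ 2) * z = (z * y ^ 2) * c ^ 2 := by ring
              _ ≤ H * c ^ 2 := mul_le_mul_of_nonneg_right h1 (by positivity)
          calc _ ≤ H * c ^ 2 * (1 / z) + H * c ^ 2 * (1 / z) := by linarith
            _ = _ := by ring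
  -- Markov
  calc (((Icc 1 H).filter (fun a => 1 < |T a|)).card : ℝ) = ∑ a ∈ (Icc 1 H).filter (fun a => 1 < |T a|), (1:ℝ) := by simp
    _ ≤ ∑ a ∈ (Icc 1 H).filter (fun a => 1 < |T a|), T a ^ 2 := by
        refine Finset.sum_le_sum (fun a ha => ?_)
        have h1 := (Finset.mem_filter.mp ha).2
        rw [← sq_abs]
        nlinarith
    _ ≤ ∑ a ∈ Icc 1 H, T a ^ 2 :=
        Finset.sum_le_sum_of_subset_of_nonneg (Finset.filter_subset _ _) (fun a _ _ => sq_nonneg _)
    _ ≤ _ := hsum

end Pool.Agent.H90.SH
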