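import Pool.Agent.H90.SH.Stm

/-! # Project SH (helper90), module Two (coincidences) -/

set_option autoImplicit false

namespace Pool.Agent.H90.SH

open Finset Polynomial

/-- numbers of `Icc 1 H` in one class modulo `p` -/
theorem card_class (H p : ℕ) (c : ℤ) (hp : 0 < p) :
    ((Icc 1 H).filter (fun a : ℕ => (p : ℤ) ∣ (a : ℤ) + c)).card ≤ H / p + 1 := by
  classical
  have hpz : (0:ℤ) < p := by exact_mod_cast hp
  -- inject a ↦ a / p into range (H / p + 1)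
  refine le_trans (Finset.card_le_card_of_injOn (fun a => a / p) (t := range (H / p + 1)) ?_ ?_) (by simp)
  · intro a ha
    simp only [Finset.coe_filter, Finset.mem_Icc, Set.mem_ofPred_eq] at ha
    simp only [Finset.coe_range, Set.mem_Iio]
    exact Nat.lt_succ_of_le (Nat.div_le_div_right ha.1.2)
  · intro a ha b hb hab
    simp only [Finset.coe_filter, Finset.mem_Icc, Set.mem_ofPred_eq] at ha hb
    simp only at hab
    have h1 : (p : ℤ) ∣ (a : ℤ) - b := by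
      have := dvd_sub ha.2 hb.2
      have e : (a : ℤ) + c - (b + c) = a - b := by ring
      rwa [e] at this
    have h2 : a % p = b % p := by
      have := (Int.emod_emod_of_dvd (a - b) (dvd_refl (p:ℤ)))
      have h3 : (a : ℤ) % p = (b : ℤ) % p := Int.emod_eq_emod_iff_emod_sub_eq_zero.mpr (Int.emod_eq_zero_of_dvd h1)
      exact_mod_cast h3
    have e1 := Nat.div_add_mod a p
    have e2 := Nat.div_add_mod b p
    rw [← e1, ← e2, hab, h2]

theorem sum_inv_sq (z : ℕ) (hz : 1 ≤ z) (y : ℕ) : ∑ n ∈ Ioc z y, (1 / (n : ℝ) ^ 2) ≤ 1 / (z:ℝ) := by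
  rcases le_total y z with h | h
  · rw [Finset.Ioc_eq_empty (by omega)]; simp
  · have key : ∀ m, z ≤ m → ∑ n ∈ Ioc z m, (1 / (n : ℝ) ^ 2) ≤ 1 / (z:ℝ) - 1 / (m:ℝ) := by
      intro m hm
      induction m, hm using Nat.le_induction with
      | base => simp
      | succ m hm ih =>
        rw [Finset.sum_Ioc_succ_top (by omega)]
        have hm0 : (0:ℝ) < m := by exact_mod_cast (by omega : 0 < m)
        have : 1 / ((m+1 : ℕ) : ℝ)^2 ≤ 1 / m - 1 / ((m + 1 : ℕ) : ℝ) := by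
          push_cast
          rw [div_sub_div _ _ hm0.ne' (by positivity), div_le_div_iff₀ (by positivity) (by positivity)]
          nlinarith
        linarith
    have := key y h
    have hy : (0:ℝ) ≤ 1 / y := by positivity
    linarith

open Classical in
theorem two : StmTwo := by
  intro f₁ f₂ s₁ s₂ hs₁ hs₂ z y H₁ H₂ hz hzy hy₁ hy₂
  set S := Icc 1 H₁ ×ˢ Icc 1 H₂ with hS
  set F : ℕ × ℕ → ℝ := fun a => ∑ p ∈ pr z y, (com f₁ f₂ s₁ s₂ a.1 a.2 p : ℝ) / p with hF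
  have hFn : ∀ a, 0 ≤ F a := fun a => Finset.sum_nonneg (fun p _ => by positivity)
  -- Markov
  have h1 : (((S.filter (fun a => 1 < F a)).card : ℕ) : ℝ) ≤ ∑ a ∈ S, F a := by
    calc (((S.filter (fun a => 1 < F a)).card : ℕ) : ℝ) = ∑ a ∈ S.filter (fun a => 1 < F a), (1:ℝ) := by simp
      _ ≤ ∑ a ∈ S.filter (fun a => 1 < F a), F a :=
          Finset.sum_le_sum (fun a ha => (Finset.mem_filter.mp ha).2.le)
      _ ≤ ∑ a ∈ S, F a := Finset.sum_le_sum_of_subset_of_nonneg (Finset.filter_subset _ _) (fun a _ _ => hFn a)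
  -- exchange
  have h2 : ∑ a ∈ S, F a = ∑ p ∈ pr z y, (∑ a ∈ S, (com f₁ f₂ s₁ s₂ a.1 a.2 p : ℝ)) / p := by
    simp only [hF]
    rw [Finset.sum_comm]
    exact Finset.sum_congr rfl (fun p _ => by rw [Finset.sum_div])
  have h3 : ∀ p ∈ pr z y, (∑ a ∈ S, (com f₁ f₂ s₁ s₂ a.1 a.2 p : ℝ)) / p ≤ 4 * H₁ * H₂ * (1 / (p:ℝ)^2) := by
    intro p hp
    simp only [pr, Finset.mem_filter, Finset.mem_Ioc] at hp
    have hp0 : 0 < p := hp.2.pos
    have hpR : (0:ℝ) < p := by exact_mod_cast hp0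
    have hc : ∑ a ∈ S, com f₁ f₂ s₁ s₂ a.1 a.2 p ≤ p * ((H₁ / p + 1) * (H₂ / p + 1)) := by
      have e : ∀ a ∈ S, com f₁ f₂ s₁ s₂ a.1 a.2 p = ∑ r ∈ range p,
          (if (p : ℤ) ∣ (a.1 : ℤ) + s₁ * f₁.eval (r : ℤ) ∧ (p : ℤ) ∣ (a.2 : ℤ) + s₂ * f₂.eval (r : ℤ) then 1 else 0) := by
        intro a _
        rw [com, Finset.card_filter]
      rw [Finset.sum_congr rfl e, Finset.sum_comm]
      calc _ ≤ ∑ r ∈ range p, (H₁ / p + 1) * (H₂ / p + 1) := by
            refine Finset.sum_le_sum (fun r _ => ?_)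
            rw [← Finset.card_filter]
            have : S.filter (fun a : ℕ × ℕ => (p : ℤ) ∣ (a.1 : ℤ) + s₁ * f₁.eval (r : ℤ) ∧
                (p : ℤ) ∣ (a.2 : ℤ) + s₂ * f₂.eval (r : ℤ)) =
                ((Icc 1 H₁).filter (fun a : ℕ => (p : ℤ) ∣ (a : ℤ) + s₁ * f₁.eval (r : ℤ))) ×ˢ
                ((Icc 1 H₂).filter (fun a : ℕ => (p : ℤ) ∣ (a : ℤ) + s₂ * f₂.eval (r : ℤ))) := by
              ext ⟨a, b⟩
              simp only [hS, Finset.mem_filter, Finset.mem_product]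
              tauto
            rw [this, Finset.card_product]
            exact Nat.mul_le_mul (card_class _ _ _ hp0) (card_class _ _ _ hp0)
        _ = _ := by simp
    have hq : ∀ H : ℕ, y ≤ H → (((H / p + 1 : ℕ)) : ℝ) ≤ 2 * H / p := by
      intro H hH
      have h4 : ((H / p : ℕ) : ℝ) ≤ (H : ℝ) / p := Nat.cast_div_le
      have h5 : (1:ℝ) ≤ (H:ℝ) / p := by
        rw [le_div_iff₀ hpR, one_mul]
        exact_mod_cast hp.1.2.trans hH
      push_cast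
      have : 2 * (H:ℝ) / p = (H:ℝ)/p + (H:ℝ)/p := by ring
      linarith
    have hcR : (∑ a ∈ S, (com f₁ f₂ s₁ s₂ a.1 a.2 p : ℝ)) ≤ p * ((2 * H₁ / p) * (2 * H₂ / p)) := by
      have h6 : ((∑ a ∈ S, com f₁ f₂ s₁ s₂ a.1 a.2 p : ℕ) : ℝ) ≤ ((p * ((H₁ / p + 1) * (H₂ / p + 1)) : ℕ) : ℝ) := by
        exact_mod_cast hc
      rw [Nat.cast_sum] at h6
      refine h6.trans ?_
      rw [Nat.cast_mul, Nat.cast_mul]
      exact mul_le_mul_of_nonneg_left (mul_le_mul (hq _ hy₁) (hq _ hy₂) (by positivity) (by positivity)) hpR.le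
    rw [div_le_iff₀ hpR]
    refine hcR.trans (le_of_eq ?_)
    field_simp
    ring
  have h4 : ∑ p ∈ pr z y, (4 * (H₁:ℝ) * H₂ * (1 / (p:ℝ)^2)) ≤ 4 * (H₁:ℝ) * H₂ * (1 / (z:ℝ)) := by
    rw [← Finset.mul_sum]
    refine mul_le_mul_of_nonneg_left ?_ (by positivity)
    refine le_trans ?_ (sum_inv_sq z hz y)
    exact Finset.sum_le_sum_of_subset_of_nonneg (Finset.filter_subset _ _) (fun n _ _ => by positivity)
  have h5 : (4 * (H₁:ℝ) * H₂ * (1 / (z:ℝ))) ≤ 8 * H₁ * H₂ / z := by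
    have : 8 * (H₁:ℝ) * H₂ / z = 4 * (H₁:ℝ) * H₂ * (1 / (z:ℝ)) + 4 * (H₁:ℝ) * H₂ * (1 / (z:ℝ)) := by ring
    rw [this]
    have : 0 ≤ 4 * (H₁:ℝ) * H₂ * (1 / (z:ℝ)) := by positivity
    linarith
  calc _ ≤ ∑ a ∈ S, F a := h1
    _ = _ := h2
    _ ≤ _ := Finset.sum_le_sum h3
    _ ≤ _ := h4
    _ ≤ _ := h5

end Pool.Agent.H90.SH
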