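import Pool.Agent.H90.SH.Fix
import Pool.Agent.H90.SH.One
import Pool.Agent.H90.SH.Two
import Pool.Graph.R_seed8.H318R2.Cr.Prod

/-! # The order of the number of the solutions, for almost all constant terms -/

set_option autoImplicit false

namespace Pool.Agent.H90.SH

open Finset Polynomial Filter Topology Pool.Agent.H90.SK
open Pool.Agent.H373R2.T7 (sysC sysC_pos sysQ nuB sum_coord vl)
open Pool.Agent.H373R2.T7.SHN (AllPrime Q1 X1 omega sing NoFixedDivisor omega_lt expected sF sσ sA sF_deg sF_lc sσ_pm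
  sing_ne_zero omega_eq)

variable {g : ℕ}

/-- two coordinates -/
theorem two_coord {k : ℕ} (H : Fin k → ℕ) {i j : Fin k} (hij : i ≠ j) (S : Finset (ℕ × ℕ)) :
    ((((Fintype.piFinset (fun i => Icc 1 (H i))).filter (fun a => (a i, a j) ∈ S)).card : ℕ) : ℝ) * (H i * H j) ≤
      S.card * ∏ l, (H l : ℝ) := by
  classical
  have hsub : (Fintype.piFinset (fun i => Icc 1 (H i))).filter (fun a => (a i, a j) ∈ S) ⊆
      S.biUnion (fun s => Fintype.piFinset (fun l => if l = i then {s.1} else if l = j then {s.2} else Icc 1 (H l))) := by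
    intro a ha
    rw [mem_filter, Fintype.mem_piFinset] at ha
    rw [mem_biUnion]
    refine ⟨(a i, a j), ha.2, ?_⟩
    rw [Fintype.mem_piFinset]
    intro l
    by_cases h1 : l = i
    · subst h1
      simp
    · by_cases h2 : l = j
      · subst h2
        simp [h1]
      · rw [if_neg h1, if_neg h2]
        exact ha.1 l
  have hcard : ∀ s ∈ S, ((Fintype.piFinset (fun l => if l = i then {s.1} else if l = j then {s.2} else
      Icc 1 (H l))).card : ℝ) * (H i * H j) = ∏ l, (H l : ℝ) := by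
    intro s _
    rw [Fintype.card_piFinset]
    have h1 : ∏ l, (H l : ℝ) = ∏ l, (((if l = i then ({s.1} : Finset ℕ) else if l = j then {s.2} else Icc 1 (H l)).card : ℝ) *
        ((if l = i then (H i : ℝ) else 1) * (if l = j then (H j : ℝ) else 1))) := by
      apply prod_congr rfl
      intro l _
      by_cases h1 : l = i
      · subst h1
        simp [hij]
      · by_cases h2 : l = j
        · subst h2
          simp [h1]
        · simp [h1, h2]
    rw [h1, prod_mul_distrib, prod_mul_distrib]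
    push_cast
    congr 1
    simp
  have h1 : (((Fintype.piFinset (fun i => Icc 1 (H i))).filter (fun a => (a i, a j) ∈ S)).card : ℝ) ≤
      ∑ s ∈ S, ((Fintype.piFinset (fun l => if l = i then {s.1} else if l = j then {s.2} else Icc 1 (H l))).card : ℝ) := by
    exact_mod_cast (card_le_card hsub).trans card_biUnion_le
  calc _ ≤ (∑ s ∈ S, ((Fintype.piFinset (fun l => if l = i then {s.1} else if l = j then {s.2} else
        Icc 1 (H l))).card : ℝ)) * (H i * H j) := mul_le_mul_of_nonneg_right h1 (by positivity)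
    _ = ∑ s ∈ S, ∏ l, (H l : ℝ) := by
        rw [sum_mul]
        exact sum_congr rfl hcard
    _ = _ := by rw [sum_const, nsmul_eq_mul]

/-- the regular constant terms -/
def Reg {k : ℕ} (F : Fin k → ℤ[X]) (σ : Fin k → ℤ) (z y : ℕ) (a : Fin k → ℕ) : Prop :=
  (∀ i, |∑ p ∈ pr z y, (1 - (rho (F i) (σ i) (a i) p : ℝ)) / p| ≤ 1) ∧
  (∀ i j, i < j → ∑ p ∈ pr z y, (com (F i) (F j) (σ i) (σ j) (a i) (a j) p : ℝ) / p ≤ 1)

open Classical in
theorem bad_box {k : ℕ} (F : Fin k → ℤ[X]) (σ : Fin k → ℤ) (hd : ∀ i, 1 ≤ (F i).natDegree)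
    (hl : ∀ i, 0 < (F i).leadingCoeff) (hσ : ∀ i, σ i = 1 ∨ σ i = -1) : ∃ C : ℝ, 0 < C ∧
    ∀ (z y : ℕ) (H : Fin k → ℕ), 1 ≤ z → z ≤ y → (∀ i, y ^ 4 ≤ H i) →
      (((Fintype.piFinset (fun i => Icc 1 (H i))).filter (fun a => ¬ Reg F σ z y a)).card : ℝ) ≤
        C * (∏ i, (H i : ℝ)) / z := by
  choose c hc0 hc using fun i => one (F i) (σ i) (hσ i) (hd i) (hl i)
  refine ⟨∑ i, c i + ∑ _i : Fin k, ∑ _j : Fin k, (8 : ℝ) + 1, ?_, ?_⟩
  · have h1 : 0 ≤ ∑ i, c i := sum_nonneg fun i _ => (hc0 i).le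
    have h2 : 0 ≤ ∑ _i : Fin k, ∑ _j : Fin k, (8 : ℝ) := by positivity
    linarith
  intro z y H hz hzy hH
  have hz0 : (0 : ℝ) < z := by exact_mod_cast hz
  have hy1 : 1 ≤ y := hz.trans hzy
  have hH1 : ∀ i, 1 ≤ H i := fun i => le_trans (Nat.one_le_pow _ _ hy1) (hH i)
  have hyH : ∀ i, y ≤ H i := fun i => le_trans (Nat.le_self_pow (by norm_num) y) (hH i)
  have hH0 : ∀ i, (0 : ℝ) < H i := fun i => by exact_mod_cast hH1 i
  have hprod : 0 ≤ ∏ i, (H i : ℝ) := prod_nonneg fun i _ => (hH0 i).le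
  set Bx := Fintype.piFinset (fun i => Icc 1 (H i)) with hBx
  set S1 : Fin k → Finset ℕ := fun i => (Icc 1 (H i)).filter
    (fun a => 1 < |∑ p ∈ pr z y, (1 - (rho (F i) (σ i) a p : ℝ)) / p|) with hS1
  set S2 : Fin k → Fin k → Finset (ℕ × ℕ) := fun i j => (Icc 1 (H i) ×ˢ Icc 1 (H j)).filter
    (fun a : ℕ × ℕ => 1 < ∑ p ∈ pr z y, (com (F i) (F j) (σ i) (σ j) a.1 a.2 p : ℝ) / p) with hS2
  have hsub : Bx.filter (fun a => ¬ Reg F σ z y a) ⊆
      (univ.biUnion fun i => Bx.filter (fun a => a i ∈ S1 i)) ∪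
        (univ.biUnion fun i => univ.biUnion fun j => if i < j then Bx.filter (fun a => (a i, a j) ∈ S2 i j) else ∅) := by
    intro a ha
    rw [mem_filter] at ha
    obtain ⟨ha1, ha2⟩ := ha
    have hmem := Fintype.mem_piFinset.1 ha1
    unfold Reg at ha2
    rw [not_and_or] at ha2
    rw [mem_union]
    rcases ha2 with ha2 | ha2
    · left
      push Not at ha2
      obtain ⟨i, hi⟩ := ha2
      rw [mem_biUnion]
      refine ⟨i, mem_univ _, mem_filter.2 ⟨ha1, ?_⟩⟩
      rw [hS1, mem_filter]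
      exact ⟨hmem i, hi⟩
    · right
      push Not at ha2
      obtain ⟨i, j, hij, h⟩ := ha2
      rw [mem_biUnion]
      refine ⟨i, mem_univ _, ?_⟩
      rw [mem_biUnion]
      refine ⟨j, mem_univ _, ?_⟩
      rw [if_pos hij, mem_filter]
      refine ⟨ha1, ?_⟩
      rw [hS2, mem_filter, mem_product]
      exact ⟨⟨hmem i, hmem j⟩, h⟩
  have hone : ∀ i, ((Bx.filter (fun a => a i ∈ S1 i)).card : ℝ) ≤ c i * (∏ i, (H i : ℝ)) / z := by
    intro i
    have h1 := hc i z y (H i) hz hzy (hH i)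
    have h2 := sum_coord H hH1 i (fun v => if v ∈ S1 i then (1 : ℝ) else 0) (c i / z) (by
      rw [← sum_filter, sum_const, nsmul_eq_mul, mul_one]
      have h3 : (Icc 1 (H i)).filter (fun v => v ∈ S1 i) = S1 i := by
        ext v
        rw [hS1, mem_filter, mem_filter]
        tauto
      rw [h3]
      calc ((S1 i).card : ℝ) ≤ c i * H i / z := h1
        _ = _ := by ring)
    rw [← sum_filter, sum_const, nsmul_eq_mul, mul_one] at h2
    calc _ ≤ c i / z * ∏ i, (H i : ℝ) := h2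
      _ = _ := by ring
  have htwo : ∀ i j, ((if i < j then Bx.filter (fun a => (a i, a j) ∈ S2 i j) else ∅ : Finset (Fin k → ℕ)).card : ℝ) ≤
      8 * (∏ i, (H i : ℝ)) / z := by
    intro i j
    by_cases hij : i < j
    · rw [if_pos hij]
      have h1 := two (F i) (F j) (σ i) (σ j) (hσ i) (hσ j) z y (H i) (H j) hz hzy (hyH i) (hyH j)
      have h2 := two_coord H (ne_of_lt hij) (S2 i j)
      have h3 : (0 : ℝ) < H i * H j := mul_pos (hH0 i) (hH0 j)
      rw [← le_div_iff₀ h3] at h2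
      refine h2.trans ?_
      rw [div_le_div_iff₀ h3 hz0]
      have h4 : ((S2 i j).card : ℝ) * z ≤ 8 * (H i * H j) := by
        rw [le_div_iff₀ hz0] at h1
        calc ((S2 i j).card : ℝ) * z ≤ 8 * H i * H j := h1
          _ = _ := by ring
      calc ((S2 i j).card : ℝ) * (∏ l, (H l : ℝ)) * z = (∏ l, (H l : ℝ)) * (((S2 i j).card : ℝ) * z) := by ring
        _ ≤ (∏ l, (H l : ℝ)) * (8 * (H i * H j)) := mul_le_mul_of_nonneg_left h4 hprod
        _ = _ := by ring
    · rw [if_neg hij, card_empty]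
      simp only [Nat.cast_zero]
      positivity
  calc ((Bx.filter (fun a => ¬ Reg F σ z y a)).card : ℝ) ≤
        ∑ i, ((Bx.filter (fun a => a i ∈ S1 i)).card : ℝ) +
        ∑ i : Fin k, ∑ j : Fin k, ((if i < j then Bx.filter (fun a => (a i, a j) ∈ S2 i j) else ∅ : Finset (Fin k → ℕ)).card : ℝ) := by
        have h1 := (card_le_card hsub).trans (card_union_le _ _)
        have h2 : ((univ.biUnion fun i => Bx.filter (fun a => a i ∈ S1 i))).card ≤
            ∑ i, (Bx.filter (fun a => a i ∈ S1 i)).card := card_biUnion_le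
        have h3 : ((univ.biUnion fun i : Fin k => univ.biUnion fun j : Fin k =>
            if i < j then Bx.filter (fun a => (a i, a j) ∈ S2 i j) else ∅)).card ≤
            ∑ i : Fin k, ∑ j : Fin k, (if i < j then Bx.filter (fun a => (a i, a j) ∈ S2 i j) else ∅ : Finset (Fin k → ℕ)).card :=
          card_biUnion_le.trans (sum_le_sum fun i _ => card_biUnion_le)
        exact_mod_cast h1.trans (add_le_add h2 h3)
    _ ≤ ∑ i, c i * (∏ i, (H i : ℝ)) / z + ∑ _i : Fin k, ∑ _j : Fin k, 8 * (∏ i, (H i : ℝ)) / z :=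
        add_le_add (sum_le_sum fun i _ => hone i) (sum_le_sum fun i _ => sum_le_sum fun j _ => htwo i j)
    _ ≤ _ := by
        have h1 : ∑ i, c i * (∏ i, (H i : ℝ)) / z = (∑ i, c i) * (∏ i, (H i : ℝ)) / z := by
          rw [sum_mul, sum_div]
        have h2 : ∑ _i : Fin k, ∑ _j : Fin k, 8 * (∏ i, (H i : ℝ)) / z =
            (∑ _i : Fin k, ∑ _j : Fin k, (8 : ℝ)) * (∏ i, (H i : ℝ)) / z := by
          simp only [sum_const, nsmul_eq_mul]
          ring
        rw [h1, h2]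
        have h3 : 0 ≤ (∏ i, (H i : ℝ)) / z := by positivity
        have h4 : (∑ i, c i + ∑ _i : Fin k, ∑ _j : Fin k, (8 : ℝ) + 1) * (∏ i, (H i : ℝ)) / z =
            (∑ i, c i) * (∏ i, (H i : ℝ)) / z + (∑ _i : Fin k, ∑ _j : Fin k, (8 : ℝ)) * (∏ i, (H i : ℝ)) / z +
              (∏ i, (H i : ℝ)) / z := by ring
        rw [h4]
        linarith

/-- **The comparison.** -/
theorem compare (h3 : StmThree) {F : Fin g → ℤ[X]} (hF : ∀ i, 1 ≤ (F i).natDegree) (hFl : ∀ i, 0 < (F i).leadingCoeff)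
    {G : ℤ[X]} (hG : 1 ≤ G.natDegree) (hGl : 0 < G.leadingCoeff) : ∃ (c C : ℝ) (z₀ : ℕ), 0 < c ∧ 0 < C ∧ 2 ≤ z₀ ∧
    ∀ (N : ℕ) (a : Fin g → ℕ) (z y : ℕ), z₀ ≤ z → z ≤ y → y ≤ X1 G N → X1 G N ≤ y ^ 16 →
      Reg (sF F G) sσ z y (sA N a) → NoFixedDivisor F a G N →
      c * expected F a G N z ≤ Pool.Agent.Results.MP_0bf1d2_nt.EveryNLargeModuli.expected (sy F a G N) (X1 G N) ∧
      Pool.Agent.Results.MP_0bf1d2_nt.EveryNLargeModuli.expected (sy F a G N) (X1 G N) ≤ C * expected F a G N z := by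
  obtain ⟨c₃, C₃, z₁, hc₃, hC₃, hthree⟩ := h3 (g + 1) (sysC (sF F G)) 16
  obtain ⟨c₁, c₂, hc₁, hc₁₂, hV⟩ := Pool.Agent.H318R2.Cr.cz_bounds
  have hc₂ : 0 < c₂ := hc₁.trans_le hc₁₂
  obtain ⟨D₀, hD₀⟩ : ∃ D₀, D₀ = (G.natDegree : ℝ) * ∏ i, ((F i).natDegree : ℝ) := ⟨_, rfl⟩
  have hD₀0 : 0 < D₀ := by
    rw [hD₀]
    apply mul_pos (by exact_mod_cast hG)
    exact prod_pos fun i _ => by exact_mod_cast hF i
  refine ⟨D₀ * (c₃ * c₁ ^ (g + 1)), D₀ * (C₃ * c₂ ^ (g + 1)), max z₁ 2, by positivity, by positivity, le_max_right _ _, ?_⟩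
  intro N a z y hz hzy hyX hXy hreg hfix
  have hz2 : 2 ≤ z := (le_max_right _ _).trans hz
  obtain ⟨t1, t2⟩ := hthree (sF F G) sσ (sA N a) (sF_deg F G hF hG) (sF_lc F G hFl hGl) sσ_pm le_rfl z y (X1 G N)
    ((le_max_left _ _).trans hz) hzy hyX hXy hreg.1 hreg.2
  set X := X1 G N with hX
  have hX2 : 2 ≤ X := by omega
  obtain ⟨v1, v2⟩ := hV X hX2
  have hlX : 0 < Real.log X := Real.log_pos (by exact_mod_cast (by omega : 1 < X))
  have hX0 : (0 : ℝ) < X := by exact_mod_cast (by omega : 0 < X)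
  have hVpos := Pool.Agent.H318R2.Cr.V_pos X
  -- the product over the primes up to `X`
  obtain ⟨Rat, hRat⟩ : ∃ Rat, Rat = ∏ p ∈ pr z X, (1 - (nuB (sysQ (sF F G) sσ (sA N a)) p : ℝ) / p) /
    (1 - 1 / (p : ℝ)) ^ (g + 1) := ⟨_, rfl⟩
  rw [← hRat] at t1 t2
  have hsing : sing F a G N X = sing F a G N z * Rat := by
    rw [hRat]
    unfold sing pr
    have h1 : (Icc 1 X).filter Nat.Prime = (Icc 1 z).filter Nat.Prime ∪ (Ioc z X).filter Nat.Prime := by
      ext p
      rw [mem_union, mem_filter, mem_filter, mem_filter, mem_Icc, mem_Icc, mem_Ioc]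
      constructor
      · rintro ⟨⟨h1, h2⟩, h3⟩
        rcases le_or_gt p z with h | h
        · left; exact ⟨⟨h1, h⟩, h3⟩
        · right; exact ⟨⟨h, h2⟩, h3⟩
      · rintro (⟨⟨h1, h2⟩, h3⟩ | ⟨⟨h1, h2⟩, h3⟩)
        · exact ⟨⟨h1, by omega⟩, h3⟩
        · exact ⟨⟨by omega, h2⟩, h3⟩
    have hdis : Disjoint ((Icc 1 z).filter Nat.Prime) ((Ioc z X).filter Nat.Prime) := by
      rw [disjoint_left]
      intro p hp hp'
      rw [mem_filter, mem_Icc] at hp
      rw [mem_filter, mem_Ioc] at hp'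
      omega
    rw [h1, prod_union hdis]
    congr 1
    apply prod_congr rfl
    intro p hp
    rw [omega_eq F a G N p (mem_filter.1 hp).2]
  have hE : Pool.Agent.Results.MP_0bf1d2_nt.EveryNLargeModuli.expected (sy F a G N) X =
      X * (sing F a G N X * Pool.Agent.H318R2.Cr.V X ^ (g + 1)) := by
    rw [Pool.Agent.Results.MP_0bf1d2_nt.EveryNLargeModuli.expected_eq]
    congr 1
    unfold VV sing Pool.Agent.H318R2.Cr.V
    have h1 : (Icc 1 X).filter Nat.Prime = PR X := rfl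
    have h2 : Pool.Agent.H318R2.Cr.Pz X = PR X := by
      ext p
      rw [mem_PR, Pool.Agent.H318R2.Cr.mem_Pz]
    rw [h1, h2, ← prod_pow, ← prod_mul_distrib]
    apply prod_congr rfl
    intro p hp
    have hpp := (mem_PR.1 hp).1
    rw [omP_sy F a G N hpp]
    have h3 : (1 - 1 / (p : ℝ)) ≠ 0 := by
      have h4 : (1 : ℝ) < p := by exact_mod_cast hpp.one_lt
      have h5 : 1 / (p : ℝ) < 1 := by rw [div_lt_one (by linarith)]; exact h4
      linarith
    field_simp
  -- positivity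
  have hadm := adm_sy hF hG hfix
  have hspos : 0 < sing F a G N z := by
    apply lt_of_le_of_ne _ (Ne.symm (sing_ne_zero F a G N z hfix))
    unfold sing
    apply prod_nonneg
    intro p hp
    have hpp := (mem_filter.1 hp).2
    have h4 : (1 : ℝ) < p := by exact_mod_cast hpp.one_lt
    have h5 : 1 / (p : ℝ) < 1 := by rw [div_lt_one (by linarith)]; exact h4
    have h6 := fac_pos hadm hpp
    rw [omP_sy F a G N hpp] at h6
    apply div_nonneg h6.le
    apply pow_nonneg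
    linarith
  obtain ⟨s, hs⟩ : ∃ s, s = sing F a G N z := ⟨_, rfl⟩
  obtain ⟨v, hv⟩ : ∃ v, v = Pool.Agent.H318R2.Cr.V X := ⟨_, rfl⟩
  have hRdef : expected F a G N z = s * X / (D₀ * Real.log X ^ (g + 1)) := by
    unfold expected
    rw [← hD₀, ← hX, ← hs]
  rw [hE, hsing, hRdef, ← hs, ← hv]
  rw [← hs] at hspos
  rw [← hv] at v1 v2 hVpos
  have key : (X : ℝ) * (s * Rat * v ^ (g + 1)) =
      (s * X / (D₀ * Real.log X ^ (g + 1))) * (D₀ * (Rat * (v * Real.log X) ^ (g + 1))) := by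
    rw [mul_pow]
    field_simp
  rw [key]
  have hR0 : 0 < s * X / (D₀ * Real.log X ^ (g + 1)) := by positivity
  have p1 : c₁ ^ (g + 1) ≤ (v * Real.log X) ^ (g + 1) := pow_le_pow_left₀ hc₁.le v1 _
  have p2 : (v * Real.log X) ^ (g + 1) ≤ c₂ ^ (g + 1) := pow_le_pow_left₀ (by positivity) v2 _
  constructor
  · rw [mul_comm (D₀ * (c₃ * c₁ ^ (g + 1)))]
    apply mul_le_mul_of_nonneg_left _ hR0.le
    apply mul_le_mul_of_nonneg_left _ hD₀0.le
    exact mul_le_mul t1 p1 (by positivity) (hc₃.le.trans t1)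
  · rw [mul_comm (D₀ * (C₃ * c₂ ^ (g + 1)))]
    apply mul_le_mul_of_nonneg_left _ hR0.le
    apply mul_le_mul_of_nonneg_left _ hD₀0.le
    exact mul_le_mul t2 p2 (by positivity) hC₃.le

end Pool.Agent.H90.SH
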