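import Pool.Graph.R_seed8.H373R2.T7.SHN3

/-! # Project SH (helper90): statements about the local densities of the systems `a_i + σ_i F_i`, on average over the `a_i` -/

set_option autoImplicit false

namespace Pool.Agent.H90.SH

open Finset Polynomial Pool.Agent.H373R2.T7

/-- the number of the zeros of `a + s f` modulo `p` -/
def rho (f : ℤ[X]) (s : ℤ) (a p : ℕ) : ℕ :=
  ((range p).filter (fun r : ℕ => (p : ℤ) ∣ (a : ℤ) + s * f.eval (r : ℤ))).card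

/-- the number of the common zeros of `a₁ + s₁ f₁` and `a₂ + s₂ f₂` modulo `p` -/
def com (f₁ f₂ : ℤ[X]) (s₁ s₂ : ℤ) (a₁ a₂ p : ℕ) : ℕ :=
  ((range p).filter (fun r : ℕ => (p : ℤ) ∣ (a₁ : ℤ) + s₁ * f₁.eval (r : ℤ) ∧
    (p : ℤ) ∣ (a₂ : ℤ) + s₂ * f₂.eval (r : ℤ))).card

/-- the primes `z < p ≤ y` -/
def pr (z y : ℕ) : Finset ℕ := (Ioc z y).filter Nat.Prime

open Classical in
/-- **Module One** (one variable, second moment). Proof. `g_p(a) = 1 - rho f s a p` depends only on `a` modulo `p`, has the sum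
`0` over a complete period (for each `r` exactly one `a` modulo `p` satisfies the congruence, since `s = ± 1`), and
`|g_p(a)| ≤ c := 1 + deg f + |lc f|` (at most `deg f` zeros if `p` does not divide the leading coefficient, `roots_le` in Sys3,
else `p ≤ |lc f|`). Let `T(a) = ∑ p ∈ pr z y, g_p(a) / p`. Then
`∑ a ∈ Icc 1 H, T(a)² = ∑ p, p' (1 / (p p')) ∑ a g_p(a) g_{p'}(a)`. For `p ≠ p'` the inner function has the period `p p'` and the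
sum `0` over a period (Chinese remainder theorem), so the inner sum is at most `p p' c²` in absolute value; for `p = p'` it
is at most `H c²`. So the whole is at most `c² (y² + H ∑_{n > z} 1 / n²) ≤ 3 c² H / z`, as `y² z ≤ y⁴ ≤ H`. Markov. -/
def StmOne : Prop :=
  ∀ (f : ℤ[X]) (s : ℤ), (s = 1 ∨ s = -1) → 1 ≤ f.natDegree → 0 < f.leadingCoeff → ∃ C : ℝ, 0 < C ∧
    ∀ z y H : ℕ, 1 ≤ z → z ≤ y → y ^ 4 ≤ H →
      (((Icc 1 H).filter (fun a => 1 < |∑ p ∈ pr z y, (1 - (rho f s a p : ℝ)) / p|)).card : ℝ) ≤ C * H / z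

open Classical in
/-- **Module Two** (coincidences). Proof. For fixed `p` and `r` the number of the `(a₁, a₂)` with both congruences is at
most `(H₁ / p + 1) (H₂ / p + 1) ≤ 4 H₁ H₂ / p²`, as `p ≤ y ≤ H₁, H₂`; so the sum over all `(a₁, a₂)` of
`∑ p ∈ pr z y, com / p` is at most `4 H₁ H₂ ∑_{p > z} 1 / p² ≤ 8 H₁ H₂ / z`. Markov. -/
def StmTwo : Prop :=
  ∀ (f₁ f₂ : ℤ[X]) (s₁ s₂ : ℤ), (s₁ = 1 ∨ s₁ = -1) → (s₂ = 1 ∨ s₂ = -1) →
    ∀ z y H₁ H₂ : ℕ, 1 ≤ z → z ≤ y → y ≤ H₁ → y ≤ H₂ →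
      (((Icc 1 H₁ ×ˢ Icc 1 H₂).filter (fun a : ℕ × ℕ => 1 < ∑ p ∈ pr z y, (com f₁ f₂ s₁ s₂ a.1 a.2 p : ℝ) / p)).card : ℝ) ≤
        8 * H₁ * H₂ / z

/-- **Module Three** (the ratio of the truncated singular series). `m` bounds `sysC F` (so all `nuB ≤ m`, see `sysQ_per` in
Sys3). Proof. Let `ν = nuB (sysQ F σ a) p`. Then `∑ i rho_i - ∑_{i<j} com_ij ≤ ν ≤ ∑ i rho_i`, so
`|∑ p ∈ pr z y, (k - ν) / p| ≤ k + k²`. For `z ≥ 2 m + 2` and `p > z` use `exp (-t - t²) ≤ 1 - t ≤ exp (-t)` for `0 ≤ t ≤ 1/2`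
with `t = ν / p` and `t = 1 / p`: the product over `pr z y` is between `exp (-(k + k²) - m²)` and `exp (k + k² + k)`. The product
over the primes of `pr y X`: each factor is at most `(1 - 1 / p) ^ (-k)` and at least `1 - m / p ≥ (1 - 1 / p) ^ (2 m)` (`p ≥ 2 m`), and
`∏ p ∈ pr y X (1 - 1 / p) = V(X) / V(y) ≥ c (log y / log X) ≥ c / K` by `Pool.Agent.H318R2.Cr.cz_bounds`
(`c₁ ≤ V(y) log y ≤ c₂`). -/
def StmThree : Prop :=
  ∀ k m K : ℕ, ∃ (c C : ℝ) (z₀ : ℕ), 0 < c ∧ 0 < C ∧ ∀ (F : Fin k → ℤ[X]) (σ : Fin k → ℤ) (a : Fin k → ℕ),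
    (∀ i, 1 ≤ (F i).natDegree) → (∀ i, 0 < (F i).leadingCoeff) → (∀ i, σ i = 1 ∨ σ i = -1) → sysC F ≤ m →
    ∀ z y X : ℕ, z₀ ≤ z → z ≤ y → y ≤ X → X ≤ y ^ K →
      (∀ i, |∑ p ∈ pr z y, (1 - (rho (F i) (σ i) (a i) p : ℝ)) / p| ≤ 1) →
      (∀ i j, i < j → ∑ p ∈ pr z y, (com (F i) (F j) (σ i) (σ j) (a i) (a j) p : ℝ) / p ≤ 1) →
      c ≤ ∏ p ∈ pr z X, (1 - (nuB (sysQ F σ a) p : ℝ) / p) / (1 - 1 / (p : ℝ)) ^ k ∧
        ∏ p ∈ pr z X, (1 - (nuB (sysQ F σ a) p : ℝ) / p) / (1 - 1 / (p : ℝ)) ^ k ≤ C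

end Pool.Agent.H90.SH
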